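import Mathlib

/-!
# The Hausdorff dimension of limsup sets, and of sets of numbers approximated by a thin set of
fractions
-/

set_option autoImplicit false

namespace Pool.Agent.R479.DA

open Filter Topology MeasureTheory Finset
open scoped ENNReal NNReal

/-- **Limsup sets.** If the sets `U i` have diameters at most `d i`, and the sum of the
`(d i) ^ D` converges, then the points in infinitely many of the `U i` form a set of dimension at
most `D`. -/
theorem dimH_limsup {ι : Type} [Countable ι] (U : ι → Set ℝ) (d : ι → ℝ) (hd : ∀ i, 0 < d i)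
    (hU : ∀ i, Metric.ediam (U i) ≤ ENNReal.ofReal (d i)) {D : ℝ} (hD : 0 < D)
    (hs : Summable fun i => d i ^ D) :
    dimH {x | {i | x ∈ U i}.Infinite} ≤ ENNReal.ofReal D := by
  have hDn : ((Real.toNNReal D : ℝ≥0) : ℝ) = D := Real.coe_toNNReal D hD.le
  have hgoal : ENNReal.ofReal D = ((Real.toNNReal D : ℝ≥0) : ℝ≥0∞) := rfl
  rw [hgoal]
  apply dimH_le_of_hausdorffMeasure_ne_top
  rw [hDn]
  -- the diameters tend to zero
  have hd0 : Tendsto d cofinite (𝓝 0) := by
    have h1 := hs.tendsto_cofinite_zero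
    have h2 : Tendsto (fun i => (d i ^ D) ^ (1 / D)) cofinite (𝓝 (0 ^ (1 / D))) :=
      h1.rpow_const (Or.inr (by positivity))
    rw [Real.zero_rpow (by positivity)] at h2
    refine h2.congr fun i => ?_
    rw [← Real.rpow_mul (hd i).le, mul_one_div_cancel hD.ne', Real.rpow_one]
  set r : Finset ι → ℝ≥0∞ := fun F => ⨆ i : {i // i ∉ F}, ENNReal.ofReal (d i) with hr
  have hrt : Tendsto r atTop (𝓝 0) := by
    rw [ENNReal.tendsto_nhds_zero]
    intro ε hε
    have h1 := ENNReal.tendsto_ofReal hd0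
    rw [ENNReal.ofReal_zero] at h1
    have h2 := h1.eventually (ge_mem_nhds hε)
    rw [Filter.eventually_cofinite] at h2
    filter_upwards [eventually_ge_atTop h2.toFinset] with F hF
    refine iSup_le fun i => ?_
    by_contra hcon
    apply i.2
    apply hF
    rw [Set.Finite.mem_toFinset]
    exact hcon
  have key := Measure.hausdorffMeasure_le_liminf_tsum (X := ℝ) (β := Finset ι)
    (ι := fun F => {i // i ∉ F}) D {x | {i | x ∈ U i}.Infinite} (l := atTop) r hrt
    (fun F i => U i)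
    (Eventually.of_forall fun F i =>
      (hU i).trans (le_iSup (fun i : {i // i ∉ F} => ENNReal.ofReal (d i)) i))
    (Eventually.of_forall fun F x hx => by
      obtain ⟨i, hi, hiF⟩ := hx.exists_notMem_finset F
      rw [Set.mem_iUnion]
      exact ⟨⟨i, hiF⟩, hi⟩)
  refine ne_top_of_le_ne_top ?_ key
  have hnn : ∀ i, 0 ≤ d i ^ D := fun i => Real.rpow_nonneg (hd i).le _
  have htot : (∑' i, ENNReal.ofReal (d i ^ D)) ≠ ⊤ := by
    rw [← ENNReal.ofReal_tsum_of_nonneg hnn hs]
    exact ENNReal.ofReal_ne_top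
  have hbound : ∀ F : Finset ι, (∑' i : {i // i ∉ F}, Metric.ediam (U i) ^ D) ≤
      ∑' i, ENNReal.ofReal (d i ^ D) := by
    intro F
    calc (∑' i : {i // i ∉ F}, Metric.ediam (U i) ^ D)
        ≤ ∑' i : {i // i ∉ F}, ENNReal.ofReal (d i ^ D) := by
          apply ENNReal.tsum_le_tsum
          intro i
          rw [← ENNReal.ofReal_rpow_of_pos (hd i)]
          exact ENNReal.rpow_le_rpow (hU i) hD.le
      _ ≤ ∑' i, ENNReal.ofReal (d i ^ D) :=
          ENNReal.tsum_comp_le_tsum_of_injective (f := fun i : {i // i ∉ F} => (i : ι))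
            Subtype.val_injective (fun i => ENNReal.ofReal (d i ^ D))
  refine ne_top_of_le_ne_top htot ?_
  apply Filter.liminf_le_of_le
  · isBoundedDefault
  · intro b hb
    obtain ⟨n, hn⟩ := hb.exists
    exact hn.trans (hbound n)

/-- the sum of `h ^ (-p)` over a set with `O(X ^ s)` elements of height `h ≤ X`, `s < p` -/
theorem summable_heights {ι : Type} (h : ι → ℝ) (h1 : ∀ i, 1 ≤ h i) {s p C : ℝ}
    (hsp : s < p) (hp : 0 < p)
    (hcount : ∀ X : ℝ, 1 ≤ X → {i | h i ≤ X}.Finite ∧ (({i | h i ≤ X}.ncard : ℕ) : ℝ) ≤ C * X ^ s) :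
    Summable fun i => h i ^ (-p) := by
  classical
  have hh0 : ∀ i, 0 < h i := fun i => lt_of_lt_of_le one_pos (h1 i)
  -- the shells
  set k : ι → ℕ := fun i => ⌊Real.logb 2 (h i)⌋₊ with hk
  have hk1 : ∀ i, (2 : ℝ) ^ k i ≤ h i := by
    intro i
    have h2 : (k i : ℝ) ≤ Real.logb 2 (h i) :=
      Nat.floor_le (Real.logb_nonneg (by norm_num) (h1 i))
    rw [Real.le_logb_iff_rpow_le (by norm_num) (hh0 i)] at h2
    rwa [Real.rpow_natCast] at h2
  have hk2 : ∀ i, h i ≤ (2 : ℝ) ^ (k i + 1) := by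
    intro i
    have h2 : Real.logb 2 (h i) < (k i : ℝ) + 1 := Nat.lt_floor_add_one _
    rw [Real.logb_lt_iff_lt_rpow (by norm_num) (hh0 i)] at h2
    have h3 : (2 : ℝ) ^ ((k i : ℝ) + 1) = (2 : ℝ) ^ (k i + 1) := by
      rw [← Real.rpow_natCast]
      push_cast
      rfl
    rw [h3] at h2
    exact h2.le
  have hC0 : 0 ≤ C := by
    have h2 := (hcount 1 le_rfl).2
    rw [Real.one_rpow, mul_one] at h2
    exact le_trans (Nat.cast_nonneg _) h2
  set q : ℝ := (2 : ℝ) ^ (s - p) with hq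
  have hq0 : 0 < q := by positivity
  have hq1 : q < 1 := by
    rw [hq]
    exact Real.rpow_lt_one_of_one_lt_of_neg (by norm_num) (by linarith)
  refine summable_of_sum_le (c := C * 2 ^ s * (1 - q)⁻¹) (fun i => by
    have := hh0 i
    positivity) fun F => ?_
  rw [← Finset.sum_fiberwise_of_maps_to (s := F) (t := F.image k)
    (fun i hi => Finset.mem_image_of_mem k hi)]
  have hshell : ∀ n ∈ F.image k, ∑ i ∈ F.filter (fun i => k i = n), h i ^ (-p) ≤
      C * 2 ^ s * q ^ n := by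
    intro n _
    have hX1 : (1 : ℝ) ≤ (2 : ℝ) ^ (n + 1) := one_le_pow₀ (by norm_num)
    obtain ⟨hfin, hle⟩ := hcount ((2 : ℝ) ^ (n + 1)) hX1
    have hcard : ((F.filter (fun i => k i = n)).card : ℝ) ≤ C * ((2 : ℝ) ^ (n + 1)) ^ s := by
      refine le_trans ?_ hle
      have hsub : ((F.filter (fun i => k i = n) : Finset ι) : Set ι) ⊆
          {i | h i ≤ (2 : ℝ) ^ (n + 1)} := by
        intro i hi
        rw [Finset.mem_coe, Finset.mem_filter] at hi
        have h3 := hk2 i
        rw [hi.2] at h3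
        exact h3
      have h4 := Set.ncard_le_ncard hsub hfin
      rw [Set.ncard_coe_finset] at h4
      exact_mod_cast h4
    have hterm : ∀ i ∈ F.filter (fun i => k i = n), h i ^ (-p) ≤ ((2 : ℝ) ^ n) ^ (-p) := by
      intro i hi
      rw [Finset.mem_filter] at hi
      have h3 := hk1 i
      rw [hi.2] at h3
      exact Real.rpow_le_rpow_of_nonpos (by positivity) h3 (by linarith)
    calc ∑ i ∈ F.filter (fun i => k i = n), h i ^ (-p)
        ≤ ∑ i ∈ F.filter (fun i => k i = n), ((2 : ℝ) ^ n) ^ (-p) := Finset.sum_le_sum hterm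
      _ = ((F.filter (fun i => k i = n)).card : ℝ) * ((2 : ℝ) ^ n) ^ (-p) := by
          rw [Finset.sum_const, nsmul_eq_mul]
      _ ≤ (C * ((2 : ℝ) ^ (n + 1)) ^ s) * ((2 : ℝ) ^ n) ^ (-p) := by gcongr
      _ = C * 2 ^ s * q ^ n := by
          rw [hq, ← Real.rpow_natCast ((2 : ℝ) ^ (s - p)), ← Real.rpow_natCast (2 : ℝ) (n + 1),
            ← Real.rpow_natCast (2 : ℝ) n, ← Real.rpow_mul (by norm_num),
            ← Real.rpow_mul (by norm_num), ← Real.rpow_mul (by norm_num), mul_assoc, mul_assoc,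
            ← Real.rpow_add (by norm_num), ← Real.rpow_add (by norm_num)]
          congr 2
          push_cast
          ring
  calc ∑ n ∈ F.image k, ∑ i ∈ F.filter (fun i => k i = n), h i ^ (-p)
      ≤ ∑ n ∈ F.image k, C * 2 ^ s * q ^ n := Finset.sum_le_sum hshell
    _ = C * 2 ^ s * ∑ n ∈ F.image k, q ^ n := by rw [Finset.mul_sum]
    _ ≤ C * 2 ^ s * (1 - q)⁻¹ := by
        have h5 : ∑ n ∈ F.image k, q ^ n ≤ (1 - q)⁻¹ := by
          rw [← tsum_geometric_of_lt_one hq0.le hq1]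
          exact (summable_geometric_of_lt_one hq0.le hq1).sum_le_tsum _ fun n _ => by positivity
        gcongr

/-- **Numbers approximated by the fractions of a thin set.** Let `P` be a set of pairs `(a, c)`,
`c ≥ 1`, with at most `C X ^ (s + ε)` elements with `c ≤ X` for every `ε > 0`. The numbers `ξ` with
`|ξ - a / c| ≤ c ^ (-τ)` for infinitely many members of `P` form a set of dimension at most
`s / τ`. -/
theorem dimH_approx (P : Set (ℕ × ℕ)) (hP : ∀ t ∈ P, 1 ≤ t.2) {s τ : ℝ} (hs : 0 ≤ s) (hτ : 0 < τ)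
    (hcount : ∀ ε : ℝ, 0 < ε → ∃ C : ℝ, ∀ X : ℝ, 1 ≤ X → {t | t ∈ P ∧ (t.2 : ℝ) ≤ X}.Finite ∧
      (({t | t ∈ P ∧ (t.2 : ℝ) ≤ X}.ncard : ℕ) : ℝ) ≤ C * X ^ (s + ε)) :
    dimH {ξ : ℝ | {t | t ∈ P ∧ |ξ - (t.1 : ℝ) / t.2| ≤ (t.2 : ℝ) ^ (-τ)}.Infinite} ≤
      ENNReal.ofReal (s / τ) := by
  apply ENNReal.le_of_forall_pos_le_add
  intro ε hε _
  have hε' : (0 : ℝ) < ε := by exact_mod_cast hε
  rw [← ENNReal.ofReal_coe_nnreal (p := ε), ← ENNReal.ofReal_add (by positivity) hε'.le]
  set D : ℝ := s / τ + ε with hD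
  have hD0 : 0 < D := by positivity
  have hDτ : D * τ = s + ε * τ := by
    rw [hD, add_mul, div_mul_cancel₀ _ hτ.ne']
  obtain ⟨C, hC⟩ := hcount (ε * τ / 2) (by positivity)
  set U : P → Set ℝ := fun t =>
    Set.Icc ((t.1.1 : ℝ) / t.1.2 - (t.1.2 : ℝ) ^ (-τ)) ((t.1.1 : ℝ) / t.1.2 + (t.1.2 : ℝ) ^ (-τ))
    with hU
  have hpos : ∀ t : P, (0 : ℝ) < (t.1.2 : ℝ) := fun t => by exact_mod_cast hP t.1 t.2
  have h1 := dimH_limsup U (fun t => 2 * (t.1.2 : ℝ) ^ (-τ)) (fun t => by
      have := hpos t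
      positivity) (fun t => by
        rw [hU]
        simp only
        rw [Real.ediam_Icc]
        apply ENNReal.ofReal_le_ofReal
        linarith) hD0 (by
      have h2 := summable_heights (ι := P) (fun t => (t.1.2 : ℝ))
        (fun t => by exact_mod_cast hP t.1 t.2) (s := s + ε * τ / 2) (p := D * τ) (C := C)
        (by rw [hDτ]; nlinarith [mul_pos hε' hτ]) (by positivity) (by
          intro X hX
          obtain ⟨hfin, hle⟩ := hC X hX
          have hinj : Set.InjOn (Subtype.val : P → ℕ × ℕ) {t | (t.1.2 : ℝ) ≤ X} :=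
            Subtype.val_injective.injOn
          have himg : (Subtype.val : P → ℕ × ℕ) '' {t | (t.1.2 : ℝ) ≤ X} =
              {t | t ∈ P ∧ (t.2 : ℝ) ≤ X} := by
            ext t
            constructor
            · rintro ⟨u, hu, rfl⟩
              exact ⟨u.2, hu⟩
            · rintro ⟨ht, htX⟩
              exact ⟨⟨t, ht⟩, htX, rfl⟩
          refine ⟨Set.Finite.of_finite_image (by rw [himg]; exact hfin) hinj, ?_⟩
          rw [← hinj.ncard_image, himg]
          exact hle)
      refine (h2.mul_left ((2 : ℝ) ^ D)).congr fun t => ?_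
      have := hpos t
      rw [Real.mul_rpow (by norm_num) (by positivity), ← Real.rpow_mul this.le]
      congr 2
      ring)
  refine le_trans (dimH_mono ?_) h1
  intro ξ hξ
  simp only [Set.mem_ofPred_eq] at hξ ⊢
  have hinj : Set.InjOn (Subtype.val : P → ℕ × ℕ) {t | ξ ∈ U t} := Subtype.val_injective.injOn
  have himg : (Subtype.val : P → ℕ × ℕ) '' {t | ξ ∈ U t} =
      {t | t ∈ P ∧ |ξ - (t.1 : ℝ) / t.2| ≤ (t.2 : ℝ) ^ (-τ)} := by
    ext t
    constructor
    · rintro ⟨u, hu, rfl⟩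
      refine ⟨u.2, ?_⟩
      obtain ⟨h3, h4⟩ := hu
      rw [abs_le]
      constructor <;> linarith
    · rintro ⟨ht, htX⟩
      rw [abs_le] at htX
      refine ⟨⟨t, ht⟩, ⟨?_, ?_⟩, rfl⟩
      · simp only
        linarith [htX.2]
      · simp only
        linarith [htX.1]
  rw [← himg] at hξ
  exact fun hfin => hξ (hfin.image _)

end Pool.Agent.R479.DA
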