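import Pool.Agent.R479.DA.Two

/-!
# Almost every number has many approximations with a small radical
-/

set_option autoImplicit false

namespace Pool.Agent.R479.DA

open Filter Topology MeasureTheory Finset
open Pool.Agent.H785R2.ABC (rad)
open scoped ENNReal NNReal

theorem pow_eq_rpow (c : ℝ) (m : ℕ) : ((2 : ℝ) ^ c) ^ m = 2 ^ (c * (m : ℝ)) := by
  rw [← Real.rpow_natCast, ← Real.rpow_mul (by norm_num)]

/-- **Almost every number has many approximations with a small radical.** -/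
theorem ae_approx2 {lam lam' B : ℝ} (h1 : 1 < lam') (h2 : lam' < lam) (h3 : lam ≤ 3) (hB : 0 < B) :
    ∀ᵐ x ∂(volume : Measure ℝ), x ∈ Set.Ioo (0 : ℝ) 1 → ∃ᶠ q : ℕ in atTop,
      ∃ p : ℕ, (p, q) ∈ Sm B lam ∧ |x - (p : ℝ) / q| < (q : ℝ) ^ (-(lam' - 1)) := by
  set κ : ℝ := 3 - lam with hκ
  set κ'' : ℝ := 3 - lam' with hκ''
  set κ' : ℝ := (κ + κ'') / 2 with hκ'
  have hκ0 : 0 ≤ κ := by linarith
  have hκκ'' : κ < κ'' := by linarith
  have hκκ : κ < κ' := by linarith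
  have hκκ2 : κ' < κ'' := by linarith
  have hκ'0 : 0 < κ' := by linarith
  have hκ''2 : κ'' < 2 := by linarith
  have hκ'2 : 0 < 2 - κ' := by linarith
  set ν : ℝ := (2 - κ') / κ' with hν
  have hν0 : 0 < ν := div_pos hκ'2 hκ'0
  set δ : ℝ := (κ'' - κ') / (2 - κ') with hδ
  have hδ0 : 0 < δ := div_pos (by linarith) hκ'2
  have hδ1 : δ < 1 := (div_lt_one hκ'2).2 (by linarith)
  set η : ℝ := 1 - κ / κ' with hη
  have hr1 : κ / κ' < 1 := (div_lt_one hκ'0).2 hκκ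
  have hr0 : 0 ≤ κ / κ' := by positivity
  have hη0 : 0 < η := by rw [hη]; linarith
  have hη1 : η ≤ 1 := by rw [hη]; linarith
  set N : ℕ → ℕ := fun m => ⌊(2 : ℝ) ^ (ν * (m : ℝ))⌋₊ with hNdef
  set L : ℕ → ℕ := fun m => ⌈(2 : ℝ) ^ (ν * (1 - δ) * (m : ℝ))⌉₊ with hLdef
  set J : ℕ → ℕ := fun m => ⌊η / 6 * m⌋₊ with hJdef
  set n : ℕ → ℕ := fun m => Nat.log 3 (2 ^ m) with hndef
  have hN1 : ∀ m : ℕ, 1 ≤ N m := fun m => Nat.one_le_floor_iff _ |>.mpr
    (Real.one_le_rpow (by norm_num) (by positivity))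
  have hNle : ∀ m : ℕ, (N m : ℝ) ≤ (2 : ℝ) ^ (ν * (m : ℝ)) := fun m => Nat.floor_le (by positivity)
  have hNlt : ∀ m : ℕ, (2 : ℝ) ^ (ν * (m : ℝ)) < (N m : ℝ) + 1 := fun m => Nat.lt_floor_add_one _
  have hνδ : 0 < ν * (1 - δ) := mul_pos hν0 (by linarith)
  have hLge : ∀ m : ℕ, (2 : ℝ) ^ (ν * (1 - δ) * (m : ℝ)) ≤ L m := fun m => Nat.le_ceil _
  have hLone : ∀ m : ℕ, (1 : ℝ) ≤ (2 : ℝ) ^ (ν * (1 - δ) * (m : ℝ)) := fun m =>
    Real.one_le_rpow (by norm_num) (by positivity)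
  have hLle : ∀ m : ℕ, (L m : ℝ) ≤ 2 * (2 : ℝ) ^ (ν * (1 - δ) * (m : ℝ)) := fun m => by
    have h4 : (L m : ℝ) < (2 : ℝ) ^ (ν * (1 - δ) * (m : ℝ)) + 1 := Nat.ceil_lt_add_one (by positivity)
    have := hLone m
    linarith
  have hL1 : ∀ m : ℕ, 1 ≤ L m := fun m => by
    have : (1 : ℝ) ≤ L m := (hLone m).trans (hLge m)
    exact_mod_cast this
  have hJle : ∀ m : ℕ, (J m : ℝ) ≤ η / 6 * m := fun m => Nat.floor_le (by positivity)
  have hJlt : ∀ m : ℕ, η / 6 * m < (J m : ℝ) + 1 := fun m => Nat.lt_floor_add_one _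
  have hn1 : ∀ m : ℕ, 3 ^ n m ≤ 2 ^ m := fun m => Nat.pow_log_le_self 3 (by positivity)
  have hn2 : ∀ m : ℕ, 2 ^ m < 3 ^ (n m + 1) := fun m => Nat.lt_pow_succ_log_self (by norm_num) _
  -- Borel-Cantelli
  set E : ℕ → Set ℝ := fun m => EA m (n m) (N m) (L m) ∪ EB m (n m) (N m) (L m) (J m) ∪
    EC m (n m) (N m) (J m) with hE
  have hvol : ∀ m : ℕ, volume (E m) ≤ ENNReal.ofReal (20 * ((2 : ℝ) ^ (-(ν * δ))) ^ m +
      36 * ((2 : ℝ) ^ (-(η / 6))) ^ m + 2 * ((2 : ℝ) ^ (-(ν * (1 - δ)))) ^ m) := by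
    intro m
    have e1 : (10 * L m / ((N m : ℝ) + 1)) ≤ 20 * ((2 : ℝ) ^ (-(ν * δ))) ^ m := by
      rw [div_le_iff₀ (by positivity)]
      have h5 : (2 : ℝ) ^ (ν * (1 - δ) * (m : ℝ)) =
          ((2 : ℝ) ^ (-(ν * δ))) ^ m * 2 ^ (ν * (m : ℝ)) := by
        rw [pow_eq_rpow, ← Real.rpow_add (by norm_num)]
        congr 1
        ring
      calc (10 : ℝ) * L m ≤ 10 * (2 * (2 : ℝ) ^ (ν * (1 - δ) * (m : ℝ))) := by
            have := hLle m
            gcongr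
        _ = 20 * ((2 : ℝ) ^ (-(ν * δ))) ^ m * 2 ^ (ν * (m : ℝ)) := by
            rw [h5]
            ring
        _ ≤ 20 * ((2 : ℝ) ^ (-(ν * δ))) ^ m * ((N m : ℝ) + 1) := by
            have := (hNlt m).le
            gcongr
    have e2 : ((1 : ℝ) / 2) ^ J m ≤ 2 * ((2 : ℝ) ^ (-(η / 6))) ^ m := by
      have h6 : ((1 : ℝ) / 2) ^ (J m + 1) ≤ ((2 : ℝ) ^ (-(η / 6))) ^ m := by
        rw [pow_eq_rpow, one_div, inv_pow, ← Real.rpow_natCast, ← Real.rpow_neg (by norm_num)]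
        apply Real.rpow_le_rpow_of_exponent_le (by norm_num)
        have := hJlt m
        push_cast
        linarith
      rw [pow_succ] at h6
      linarith
    have e3 : (2 / (L m : ℝ)) ≤ 2 * ((2 : ℝ) ^ (-(ν * (1 - δ)))) ^ m := by
      have h5 : ((2 : ℝ) ^ (-(ν * (1 - δ)))) ^ m = ((2 : ℝ) ^ (ν * (1 - δ) * (m : ℝ)))⁻¹ := by
        rw [pow_eq_rpow, ← Real.rpow_neg (by norm_num)]
        congr 1
        ring
      rw [h5, div_eq_mul_inv]
      have := hLge m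
      have h6 : (0 : ℝ) < (2 : ℝ) ^ (ν * (1 - δ) * (m : ℝ)) := by positivity
      gcongr
    have hJ0 : (0 : ℝ) ≤ (1 / 2) ^ J m := by positivity
    calc volume (E m) ≤ volume (EA m (n m) (N m) (L m)) +
          volume (EB m (n m) (N m) (L m) (J m)) + volume (EC m (n m) (N m) (J m)) :=
          (measure_union_le _ _).trans (add_le_add_left (measure_union_le _ _) _)
      _ ≤ ENNReal.ofReal (10 * L m / (N m + 1)) + ENNReal.ofReal (8 * (1 / 2) ^ J m + 2 / L m) +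
          ENNReal.ofReal (10 * (1 / 2) ^ J m) :=
          add_le_add (add_le_add (volume_EA _ _ _ _) (volume_EB _ _ _ _ _ (hL1 m)))
            (volume_EC _ _ _ _)
      _ = ENNReal.ofReal (10 * L m / (N m + 1) + (8 * (1 / 2) ^ J m + 2 / L m) +
          10 * (1 / 2) ^ J m) := by
          rw [← ENNReal.ofReal_add (by positivity) (by positivity),
            ← ENNReal.ofReal_add (by positivity) (by positivity)]
      _ ≤ _ := ENNReal.ofReal_le_ofReal (by linarith)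
  have hgeo : ∀ c : ℝ, 0 < c → Summable fun m : ℕ => ((2 : ℝ) ^ (-c)) ^ m := fun c hc =>
    summable_geometric_of_lt_one (by positivity)
      (Real.rpow_lt_one_of_one_lt_of_neg (by norm_num) (by linarith))
  have hsum : (∑' m, volume (E m)) ≠ ⊤ := by
    have h4 : Summable fun m : ℕ => 20 * ((2 : ℝ) ^ (-(ν * δ))) ^ m +
        36 * ((2 : ℝ) ^ (-(η / 6))) ^ m + 2 * ((2 : ℝ) ^ (-(ν * (1 - δ)))) ^ m :=
      (((hgeo _ (by positivity)).mul_left 20).add ((hgeo _ (by positivity)).mul_left 36)).add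
        ((hgeo _ hνδ).mul_left 2)
    refine ne_top_of_le_ne_top ?_ (ENNReal.tsum_le_tsum hvol)
    rw [← ENNReal.ofReal_tsum_of_nonneg (fun m => by positivity) h4]
    exact ENNReal.ofReal_ne_top
  filter_upwards [ae_eventually_notMem hsum] with x hx hx01
  rw [Filter.frequently_atTop]
  intro K
  -- a large scale
  have hlim : ∀ c : ℝ, 0 < c → Tendsto (fun m : ℕ => (2 : ℝ) ^ (c * (m : ℝ))) atTop atTop := by
    intro c hc
    have h4 : (1 : ℝ) < 2 ^ c := Real.one_lt_rpow (by norm_num) hc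
    exact (tendsto_pow_atTop_atTop_of_one_lt h4).congr fun m => pow_eq_rpow c m
  have hlim0 : Tendsto (fun m : ℕ => 1 / ((N m : ℝ) + 1)) atTop (𝓝 0) := by
    have h4 := (hlim ν hν0).inv_tendsto_atTop
    refine squeeze_zero (fun m => by positivity) (fun m => ?_) h4
    simp only [Pi.inv_apply]
    rw [one_div]
    have := (hNlt m).le
    have h6 : (0 : ℝ) < (2 : ℝ) ^ (ν * (m : ℝ)) := by positivity
    gcongr
  have ev1 := (hlim η hη0).eventually_ge_atTop (18 / B)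
  have ev2 := (hlim (1 / 2) (by norm_num)).eventually_ge_atTop (K : ℝ)
  have ev3 := hlim0.eventually_lt_const hx01.1
  have ev4 := hlim0.eventually_lt_const (show (0 : ℝ) < 1 - x by linarith [hx01.2])
  obtain ⟨m, hxm, e1, e2, e3, e4⟩ := (hx.and (ev1.and (ev2.and (ev3.and ev4)))).exists
  have hxA : x ∉ EA m (n m) (N m) (L m) := fun h => hxm (Or.inl (Or.inl h))
  have hxB : x ∉ EB m (n m) (N m) (L m) (J m) := fun h => hxm (Or.inl (Or.inr h))
  have hxC : x ∉ EC m (n m) (N m) (J m) := fun h => hxm (Or.inr h)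
  obtain ⟨p, q, g, u, v, hLv, hvN, hp0, hpq, hco, hg0, hgJ, hpg, hqg, hrad, hdist⟩ :=
    step2 (hN1 m) (hn1 m) (hn2 m) e3 (by linarith) hxA hxB hxC
  have hq0 : 0 < q := by omega
  have hqr : (0 : ℝ) < q := by exact_mod_cast hq0
  have hv1 : 1 ≤ v := (hL1 m).trans hLv
  have hvr : (1 : ℝ) ≤ v := by exact_mod_cast hv1
  have hgr : (1 : ℝ) ≤ g := by exact_mod_cast hg0
  have h2m : (0 : ℝ) < 2 ^ m := by positivity
  have hqg' : (q : ℝ) * g = 2 ^ m * v := by exact_mod_cast hqg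
  have hpg' : (p : ℝ) * g = 3 ^ (n m) * u := by exact_mod_cast hpg
  have hpq' : (p : ℝ) ≤ q := by exact_mod_cast hpq.le
  have h3n : (2 : ℝ) ^ m ≤ 3 ^ (n m) * 3 := by
    have h4 := hn2 m
    rw [pow_succ] at h4
    exact_mod_cast h4.le
  -- the size of `g`
  have hg8 : (g : ℝ) ≤ 2 ^ (η / 2 * (m : ℝ)) := by
    calc (g : ℝ) ≤ 6 ^ J m := by exact_mod_cast hgJ.le
      _ ≤ 8 ^ J m := by gcongr; norm_num
      _ = 2 ^ (3 * (J m : ℝ)) := by
          rw [show (8 : ℝ) = 2 ^ (3 : ℝ) by norm_num, ← Real.rpow_natCast, ← Real.rpow_mul (by norm_num)]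
      _ ≤ 2 ^ (η / 2 * (m : ℝ)) := by
          apply Real.rpow_le_rpow_of_exponent_le (by norm_num)
          have := hJle m
          linarith
  -- the size of `q`
  have hqle : (q : ℝ) ≤ 2 ^ (2 / κ' * (m : ℝ)) := by
    have h4 : (2 : ℝ) ^ (2 / κ' * (m : ℝ)) = 2 ^ m * 2 ^ (ν * (m : ℝ)) := by
      rw [← Real.rpow_natCast 2 m, ← Real.rpow_add (by norm_num)]
      congr 1
      rw [hν]
      field_simp
      ring
    rw [h4]
    have h5 : (q : ℝ) ≤ q * g := le_mul_of_one_le_right hqr.le hgr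
    rw [hqg'] at h5
    refine h5.trans ?_
    have h6 : (v : ℝ) ≤ N m := by exact_mod_cast hvN
    gcongr
    exact h6.trans (hNle m)
  refine ⟨q, ?_, p, ⟨hp0, hpq, hco, ?_⟩, ?_⟩
  · -- `K ≤ q`
    have h4 : (2 : ℝ) ^ m ≤ q * 2 ^ (η / 2 * (m : ℝ)) := by
      calc (2 : ℝ) ^ m ≤ 2 ^ m * v := le_mul_of_one_le_right h2m.le hvr
        _ = q * g := hqg'.symm
        _ ≤ q * 2 ^ (η / 2 * (m : ℝ)) := by gcongr
    have h5 : (2 : ℝ) ^ m = 2 ^ ((1 - η / 2) * (m : ℝ)) * 2 ^ (η / 2 * (m : ℝ)) := by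
      rw [← Real.rpow_natCast, ← Real.rpow_add (by norm_num)]
      congr 1
      ring
    rw [h5] at h4
    have h6 : (2 : ℝ) ^ ((1 - η / 2) * (m : ℝ)) ≤ q := le_of_mul_le_mul_right h4 (by positivity)
    have h7 : (2 : ℝ) ^ (1 / 2 * (m : ℝ)) ≤ 2 ^ ((1 - η / 2) * (m : ℝ)) := by
      apply Real.rpow_le_rpow_of_exponent_le (by norm_num)
      have : (0 : ℝ) ≤ m := Nat.cast_nonneg m
      nlinarith
    have h8 : (K : ℝ) ≤ q := e2.trans (h7.trans h6)
    exact_mod_cast h8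
  · -- the radical
    simp only
    have h4 : (rad (p * q * (q - p)) : ℝ) ≤ (3 * u) * (2 * v) * q := by exact_mod_cast hrad
    refine h4.trans ?_
    have h5 : (q : ℝ) ^ lam = q ^ (3 : ℕ) * (q : ℝ) ^ (-κ) := by
      rw [← Real.rpow_natCast, ← Real.rpow_add hqr]
      congr 1
      rw [hκ]
      push_cast
      ring
    have h6 : (q : ℝ) ^ κ ≤ 2 ^ (2 * (κ / κ') * (m : ℝ)) := by
      calc (q : ℝ) ^ κ ≤ (2 ^ (2 / κ' * (m : ℝ))) ^ κ := Real.rpow_le_rpow hqr.le hqle hκ0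
        _ = 2 ^ (2 * (κ / κ') * (m : ℝ)) := by
            rw [← Real.rpow_mul (by norm_num)]
            congr 1
            ring
    have h7 : 18 * (g : ℝ) ^ 2 * (q : ℝ) ^ κ ≤ B * (2 ^ m * 2 ^ m) := by
      have h8 : (2 : ℝ) ^ m * 2 ^ m = 2 ^ (η * (m : ℝ)) * ((2 ^ (η / 2 * (m : ℝ))) ^ 2 *
          2 ^ (2 * (κ / κ') * (m : ℝ))) := by
        rw [← Real.rpow_natCast 2 m, sq, ← Real.rpow_add (by norm_num),
          ← Real.rpow_add (by norm_num), ← Real.rpow_add (by norm_num),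
          ← Real.rpow_add (by norm_num)]
        congr 1
        rw [hη]
        ring
      rw [div_le_iff₀ hB] at e1
      rw [h8]
      calc 18 * (g : ℝ) ^ 2 * (q : ℝ) ^ κ
          ≤ (2 ^ (η * (m : ℝ)) * B) * (2 ^ (η / 2 * (m : ℝ))) ^ 2 *
            2 ^ (2 * (κ / κ') * (m : ℝ)) := by gcongr
        _ = _ := by ring
    have h9 : (q : ℝ) ^ κ * (q : ℝ) ^ (-κ) = 1 := by
      rw [← Real.rpow_add hqr]
      simp
    have hqκ : 0 < (q : ℝ) ^ κ := by positivity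
    rw [h5]
    -- `u 2 ^ m ≤ 3 q g`
    have h10 : (u : ℝ) * 2 ^ m ≤ 3 * (q * g) := by
      calc (u : ℝ) * 2 ^ m ≤ u * (3 ^ (n m) * 3) := by gcongr
        _ = 3 * (p * g) := by rw [hpg']; ring
        _ ≤ 3 * (q * g) := by gcongr
    have h11 : ((3 * u) * (2 * v) * (q : ℝ)) * ((q : ℝ) ^ κ * (2 ^ m * 2 ^ m)) ≤
        (B * (q ^ (3 : ℕ) * (q : ℝ) ^ (-κ))) * ((q : ℝ) ^ κ * (2 ^ m * 2 ^ m)) := by
      calc ((3 * u) * (2 * v) * (q : ℝ)) * ((q : ℝ) ^ κ * (2 ^ m * 2 ^ m))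
          = 6 * (u * 2 ^ m) * (2 ^ m * v) * q * (q : ℝ) ^ κ := by ring
        _ ≤ 6 * (3 * (q * g)) * (q * g) * q * (q : ℝ) ^ κ := by
            rw [hqg']
            rw [hqg'] at h10
            gcongr
        _ = q ^ 3 * (18 * (g : ℝ) ^ 2 * (q : ℝ) ^ κ) := by ring
        _ ≤ q ^ 3 * (B * (2 ^ m * 2 ^ m)) := by gcongr
        _ = (B * q ^ 3 * (2 ^ m * 2 ^ m)) * ((q : ℝ) ^ κ * (q : ℝ) ^ (-κ)) := by rw [h9]; ring
        _ = _ := by ring
    exact le_of_mul_le_mul_right h11 (by positivity)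
  · -- the distance
    refine lt_of_le_of_lt hdist ?_
    have h4 : (q : ℝ) ^ (2 - κ'') < ((N m : ℝ) + 1) * v := by
      calc (q : ℝ) ^ (2 - κ'') ≤ (2 ^ (2 / κ' * (m : ℝ))) ^ (2 - κ'') :=
            Real.rpow_le_rpow hqr.le hqle (by linarith)
        _ = 2 ^ (2 / κ' * (m : ℝ) * (2 - κ'')) := by rw [← Real.rpow_mul (by norm_num)]
        _ ≤ 2 ^ (ν * (m : ℝ) + ν * (1 - δ) * (m : ℝ)) := by
            apply Real.rpow_le_rpow_of_exponent_le (by norm_num)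
            have h5 : 2 / κ' * (2 - κ'') ≤ ν + ν * (1 - δ) := by
              rw [hν, hδ]
              have h6 : (2 - κ') / κ' + (2 - κ') / κ' * (1 - (κ'' - κ') / (2 - κ')) -
                  2 / κ' * (2 - κ'') = (κ'' - κ') / κ' := by
                field_simp
                ring
              have h7 : 0 < (κ'' - κ') / κ' := div_pos (by linarith) hκ'0
              linarith
            have h8 : (0 : ℝ) ≤ m := Nat.cast_nonneg m
            nlinarith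
        _ = 2 ^ (ν * (m : ℝ)) * 2 ^ (ν * (1 - δ) * (m : ℝ)) := Real.rpow_add (by norm_num) _ _
        _ < ((N m : ℝ) + 1) * v := by
            have h9 : (2 : ℝ) ^ (ν * (1 - δ) * (m : ℝ)) ≤ v :=
              (hLge m).trans (by exact_mod_cast hLv)
            have h10 := hNlt m
            have h11 : (0 : ℝ) < (2 : ℝ) ^ (ν * (1 - δ) * (m : ℝ)) := by positivity
            calc (2 : ℝ) ^ (ν * (m : ℝ)) * 2 ^ (ν * (1 - δ) * (m : ℝ))
                < ((N m : ℝ) + 1) * 2 ^ (ν * (1 - δ) * (m : ℝ)) := by gcongr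
              _ ≤ ((N m : ℝ) + 1) * v := by gcongr
    have h5 : (q : ℝ) ^ (-(lam' - 1)) = 1 / (q : ℝ) ^ (2 - κ'') := by
      rw [one_div, ← Real.rpow_neg hqr.le]
      congr 1
      rw [hκ'']
      ring
    rw [h5]
    exact one_div_lt_one_div_of_lt (by positivity) h4

end Pool.Agent.R479.DA
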