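import Pool.Agent.R479.DA.Ae

/-!
# The exact dimension
-/

set_option autoImplicit false

namespace Pool.Agent.R479.DA

open Filter Topology MeasureTheory Finset
open Pool.Agent.H785R2.ABC (rad)
open scoped ENNReal NNReal

/-- the real numbers with infinitely many approximations of exponent `τ` and a small radical -/
def WW (B lam τ : ℝ) : Set ℝ :=
  {ξ : ℝ | {t | t ∈ Sm B lam ∧ |ξ - (t.1 : ℝ) / t.2| ≤ (t.2 : ℝ) ^ (-τ)}.Infinite}

theorem mem_WW_of_frequently {B lam τ x : ℝ}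
    (h : ∃ᶠ q : ℕ in atTop, ∃ p : ℕ, (p, q) ∈ Sm B lam ∧ |x - (p : ℝ) / q| ≤ (q : ℝ) ^ (-τ)) :
    x ∈ WW B lam τ := by
  unfold WW
  simp only [Set.mem_ofPred_eq]
  intro hfin
  have h1 : (Prod.snd '' {t : ℕ × ℕ | t ∈ Sm B lam ∧
      |x - (t.1 : ℝ) / t.2| ≤ (t.2 : ℝ) ^ (-τ)}).Finite := hfin.image _
  obtain ⟨K, hK⟩ := h1.bddAbove
  obtain ⟨q, hq, p, hp, hd⟩ := (Filter.frequently_atTop.1 h) (K + 1)
  have h2 : q ≤ K := hK ⟨(p, q), ⟨hp, hd⟩, rfl⟩
  omega

/-- lower bound for the dimension from the mass transference principle -/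
theorem dim_lower {lam lam' B τ : ℝ} (h1 : 1 < lam') (h2 : lam' < lam) (h3 : lam ≤ 3) (hB : 0 < B)
    (hτ : lam' - 1 ≤ τ) : ENNReal.ofReal ((lam' - 1) / τ) ≤ dimH (WW B lam τ) := by
  have hτ0 : 0 < τ := by linarith
  set t : ℝ := (lam' - 1) / τ with ht
  have ht0 : 0 < t := div_pos (by linarith) hτ0
  have ht1 : t ≤ 1 := (div_le_one hτ0).2 hτ
  set C : ℕ → Set ℝ := fun q => {c | ∃ p : ℕ, (p, q) ∈ Sm B lam ∧ c = (p : ℝ) / q} with hC
  set ρ : ℕ → ℝ := fun q => ((max q 1 : ℕ) : ℝ) ^ (-(lam' - 1)) with hρ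
  have hρpos : ∀ q, 0 < ρ q := fun q => by
    have : (0 : ℝ) < ((max q 1 : ℕ) : ℝ) := by
      have : 0 < max q 1 := by omega
      exact_mod_cast this
    simp only [hρ]
    positivity
  have hρ1 : ∀ q : ℕ, 1 ≤ q → ρ q = (q : ℝ) ^ (-(lam' - 1)) := by
    intro q hq
    simp only [hρ]
    rw [max_eq_left hq]
  have hρ0 : Tendsto ρ atTop (𝓝 0) := by
    have h4 : Tendsto (fun q : ℕ => (q : ℝ) ^ (-(lam' - 1))) atTop (𝓝 0) :=
      (tendsto_rpow_neg_atTop (by linarith)).comp tendsto_natCast_atTop_atTop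
    refine h4.congr' ?_
    filter_upwards [eventually_ge_atTop 1] with q hq
    exact (hρ1 q hq).symm
  have hSpos : ∀ p q : ℕ, (p, q) ∈ Sm B lam → 1 ≤ q := by
    rintro p q ⟨h4, h5, -⟩
    simp only at h4 h5
    omega
  have hfull : ∀ᵐ x ∂(volume : Measure ℝ), x ∈ Set.Ioo 0 1 →
      ∃ᶠ k in atTop, ∃ c ∈ C k, |x - c| < ρ k := by
    filter_upwards [ae_approx2 h1 h2 h3 hB] with x hx hx01
    refine (hx hx01).mono ?_
    rintro q ⟨p, hp, hd⟩
    exact ⟨(p : ℝ) / q, ⟨p, hp, rfl⟩, by rw [hρ1 q (hSpos p q hp)]; exact hd⟩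
  -- the content
  have hcont : ∀ s : ℝ, 0 < s → s < t → μH[s] (WW B lam τ) ≠ 0 := by
    intro s hs hst hzero
    have h4 : ENNReal.ofReal (1 / 20) ≤ μH[s] (WW B lam τ) := by
      rw [Measure.hausdorffMeasure_apply]
      refine le_trans ?_ (le_iSup₂ (f := fun (r : ℝ≥0∞) (_ : 0 < r) =>
        ⨅ (t : ℕ → Set ℝ) (_ : WW B lam τ ⊆ ⋃ n, t n) (_ : ∀ n, Metric.ediam (t n) ≤ r),
          ∑' n, ⨆ _ : (t n).Nonempty, Metric.ediam (t n) ^ s) 1 one_pos)
      refine le_iInf fun A => le_iInf fun hA => le_iInf fun _ => ?_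
      have h5 := Pool.Agent.R331.MT.content hs hst ht1 C ρ hρpos hρ0 hfull A (by
        refine subset_trans ?_ hA
        rintro x ⟨-, hx⟩
        apply mem_WW_of_frequently
        refine hx.mono ?_
        rintro q ⟨c, ⟨p, hp, rfl⟩, hc⟩
        refine ⟨p, hp, ?_⟩
        have hq := hSpos p q hp
        rw [hρ1 q hq, ← Real.rpow_mul (Nat.cast_nonneg q)] at hc
        have h6 : -(lam' - 1) * (1 / t) = -τ := by
          rw [ht]
          have : lam' - 1 ≠ 0 := by linarith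
          field_simp
        rw [h6] at hc
        exact hc.le)
      refine h5.trans (ENNReal.tsum_le_tsum fun n => ?_)
      rcases (A n).eq_empty_or_nonempty with hn | hn
      · rw [hn, Metric.ediam_empty, ENNReal.zero_rpow_of_pos hs]
        exact zero_le
      · exact le_iSup (fun _ : (A n).Nonempty => Metric.ediam (A n) ^ s) hn
    rw [hzero] at h4
    have h5 : ENNReal.ofReal (1 / 20) = 0 := nonpos_iff_eq_zero.1 h4
    rw [ENNReal.ofReal_eq_zero] at h5
    norm_num at h5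
  refine le_of_forall_lt fun c hc => ?_
  -- choose `s` between
  obtain ⟨s, hs1, hs2⟩ := ENNReal.lt_iff_exists_real_btwn.1 hc
  obtain ⟨hs2, hs3⟩ := hs2
  have hst : s < t := (ENNReal.ofReal_lt_ofReal_iff ht0).1 hs3
  have hs0 : 0 < s := by
    have : 0 < ENNReal.ofReal s := lt_of_le_of_lt zero_le hs2
    exact ENNReal.ofReal_pos.1 this
  have h6 := hcont s hs0 hst
  have h7 : ((Real.toNNReal s : ℝ≥0) : ℝ) = s := Real.coe_toNNReal s hs0.le
  have h8 := le_dimH_of_hausdorffMeasure_ne_zero (d := Real.toNNReal s) (s := WW B lam τ)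
    (by rw [h7]; exact h6)
  exact lt_of_lt_of_le hs2 h8

/-- below the threshold almost every number has infinitely many such approximations -/
theorem ae_WW {lam B τ : ℝ} (h1 : 1 < lam) (h3 : lam ≤ 3) (hB : 0 < B) (hτ : τ < lam - 1) :
    ∀ᵐ x ∂(volume : Measure ℝ), x ∈ Set.Ioo (0 : ℝ) 1 → x ∈ WW B lam τ := by
  obtain ⟨lam', h4, h5⟩ := exists_between (show max 1 (τ + 1) < lam from max_lt h1 (by linarith))
  have h6 : 1 < lam' := lt_of_le_of_lt (le_max_left _ _) h4
  have h7 : τ + 1 < lam' := lt_of_le_of_lt (le_max_right _ _) h4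
  filter_upwards [ae_approx2 h6 h5 h3 hB] with x hx hx01
  apply mem_WW_of_frequently
  refine (hx hx01).mono ?_
  rintro q ⟨p, hp, hd⟩
  refine ⟨p, hp, hd.le.trans ?_⟩
  apply Real.rpow_le_rpow_of_exponent_le _ (by linarith)
  obtain ⟨h8, h9, -⟩ := hp
  simp only at h8 h9
  have : 1 ≤ q := by omega
  exact_mod_cast this

/-- the lower bound for the dimension -/
theorem dim_ge {lam B τ : ℝ} (h1 : 1 < lam) (h3 : lam ≤ 3) (hB : 0 < B) (hτ : 0 < τ) :
    ENNReal.ofReal (min 1 ((lam - 1) / τ)) ≤ dimH (WW B lam τ) := by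
  rw [ENNReal.ofReal_min, ENNReal.ofReal_one]
  rcases lt_or_ge τ (lam - 1) with h | h
  · refine (min_le_left _ _).trans ?_
    have h4 : (volume : Measure ℝ) (WW B lam τ) ≠ 0 := by
      intro hzero
      have h5 : (volume : Measure ℝ) (Set.Ioo (0 : ℝ) 1) ≤ volume (WW B lam τ) := by
        apply measure_mono_ae
        filter_upwards [ae_WW h1 h3 hB h] with x hx hx01
        exact hx hx01
      rw [hzero, Real.volume_Ioo] at h5
      norm_num at h5
    rw [← hausdorffMeasure_real] at h4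
    have h6 := le_dimH_of_hausdorffMeasure_ne_zero (d := 1) (s := WW B lam τ)
      (by rw [NNReal.coe_one]; exact h4)
    simpa using h6
  · refine (min_le_right _ _).trans ?_
    have h5 : Tendsto (fun x : ℝ => ENNReal.ofReal ((x - 1) / τ)) (𝓝[<] lam)
        (𝓝 (ENNReal.ofReal ((lam - 1) / τ))) := by
      apply ENNReal.tendsto_ofReal
      apply Tendsto.mono_left _ nhdsWithin_le_nhds
      exact Continuous.tendsto (by fun_prop) lam
    refine le_of_tendsto h5 ?_
    have h6 : ∀ᶠ x : ℝ in 𝓝[<] lam, 1 < x := by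
      apply eventually_nhdsWithin_of_eventually_nhds
      exact lt_mem_nhds h1
    filter_upwards [h6, self_mem_nhdsWithin] with x hx hx'
    have hx'' : x < lam := hx'
    exact dim_lower hx hx'' h3 hB (by linarith)

/-- the upper bound for the dimension -/
theorem dim_le {lam B τ : ℝ} (h1 : 0 < lam) (hτ : 0 < τ) :
    dimH (WW B lam τ) ≤ ENNReal.ofReal (min 1 (Pool.Agent.W221.ABC7.Fx lam / τ)) := by
  rw [ENNReal.ofReal_min, ENNReal.ofReal_one]
  apply le_min
  · rw [← Real.dimH_univ]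
    exact dimH_mono (Set.subset_univ _)
  · exact dim_sm B lam τ h1 hτ

/-- **The Jarník-Besicovitch theorem for approximations with a small radical.** -/
theorem dim_exact {lam B τ : ℝ} (h1 : 2 ≤ lam) (h3 : lam ≤ 3) (hB : 0 < B) (hτ : 0 < τ) :
    dimH (WW B lam τ) = ENNReal.ofReal (min 1 ((lam - 1) / τ)) := by
  apply le_antisymm _ (dim_ge (by linarith) h3 hB hτ)
  have h4 := dim_le (B := B) (show 0 < lam by linarith) hτ
  rwa [Pool.Agent.W221.ABC7.Fx_two lam h1] at h4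

end Pool.Agent.R479.DA
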