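import Pool.Agent.R479.DA.Lim
import Pool.Agent.W221.ABC.Main7

/-!
# Fractions `p / q` with a small radical of `p q (q - p)`
-/

set_option autoImplicit false

namespace Pool.Agent.R479.DA

open Finset Pool.Agent.W221.ABC7
open Pool.Agent.H785R2.ABC (rad)

/-- the fractions `p / q` in lowest terms in `(0, 1)` with `rad (p q (q - p)) ≤ B q ^ lam` -/
def Sm (B lam : ℝ) : Set (ℕ × ℕ) :=
  {t | 0 < t.1 ∧ t.1 < t.2 ∧ Nat.Coprime t.1 t.2 ∧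
    (rad (t.1 * t.2 * (t.2 - t.1)) : ℝ) ≤ B * (t.2 : ℝ) ^ lam}

theorem sm_count (B lam : ℝ) (hlam : 0 < lam) (ε : ℝ) (hε : 0 < ε) : ∃ C : ℝ, ∀ X : ℝ, 1 ≤ X →
    {t | t ∈ Sm B lam ∧ (t.2 : ℝ) ≤ X}.Finite ∧
      (({t | t ∈ Sm B lam ∧ (t.2 : ℝ) ≤ X}.ncard : ℕ) : ℝ) ≤ C * X ^ (Fx lam + ε) := by
  obtain ⟨C, hC⟩ := count_FxB B lam ε hlam hε
  refine ⟨|C|, fun X hX => ?_⟩
  have hX1 : 1 ≤ ⌊X⌋₊ := Nat.one_le_floor_iff _ |>.mpr hX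
  have hfin := excB_finite B lam ⌊X⌋₊
  have hmaps : Set.MapsTo (fun t : ℕ × ℕ => (t.1, t.2 - t.1, t.2))
      {t | t ∈ Sm B lam ∧ (t.2 : ℝ) ≤ X} (ExcB B lam ⌊X⌋₊) := by
    rintro ⟨p, q⟩ ⟨⟨h1, h2, h3, h4⟩, h5⟩
    simp only at h1 h2 h3 h4 h5
    refine ⟨h1, by simp only; omega, ?_, by simp only; omega, Nat.le_floor h5, ?_⟩
    · simp only
      have h6 : Nat.Coprime p (q - p) ↔ Nat.Coprime p q := by
        conv_rhs => rw [show q = q - p + p by omega]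
        simp
      exact h6.mpr h3
    · simp only
      rw [show p * (q - p) * q = p * q * (q - p) by ring]
      exact h4
  have hinj : Set.InjOn (fun t : ℕ × ℕ => (t.1, t.2 - t.1, t.2))
      {t | t ∈ Sm B lam ∧ (t.2 : ℝ) ≤ X} := by
    rintro ⟨p, q⟩ _ ⟨p', q'⟩ _ h
    simp only [Prod.mk.injEq] at h
    ext
    · exact h.1
    · exact h.2.2
  have hf : {t | t ∈ Sm B lam ∧ (t.2 : ℝ) ≤ X}.Finite := hfin.of_injOn hmaps hinj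
  refine ⟨hf, ?_⟩
  have h1 := Set.ncard_le_ncard_of_injOn _ hmaps hinj hfin
  have h2 := hC ⌊X⌋₊ hX1
  have hF := Fx_pos lam hlam
  calc (({t | t ∈ Sm B lam ∧ (t.2 : ℝ) ≤ X}.ncard : ℕ) : ℝ)
      ≤ ((ExcB B lam ⌊X⌋₊).ncard : ℝ) := by exact_mod_cast h1
    _ ≤ C * (⌊X⌋₊ : ℝ) ^ (Fx lam + ε) := h2
    _ ≤ |C| * (⌊X⌋₊ : ℝ) ^ (Fx lam + ε) :=
        mul_le_mul_of_nonneg_right (le_abs_self C) (by positivity)
    _ ≤ |C| * X ^ (Fx lam + ε) := by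
        have h3 : (⌊X⌋₊ : ℝ) ≤ X := Nat.floor_le (by linarith)
        gcongr

/-- **The dimension of the set of numbers approximated by such fractions.** -/
theorem dim_sm (B lam τ : ℝ) (hlam : 0 < lam) (hτ : 0 < τ) :
    dimH {ξ : ℝ | {t | t ∈ Sm B lam ∧ |ξ - (t.1 : ℝ) / t.2| ≤ (t.2 : ℝ) ^ (-τ)}.Infinite} ≤
      ENNReal.ofReal (Fx lam / τ) :=
  dimH_approx (Sm B lam) (fun t ht => by
    obtain ⟨h1, h2, -⟩ := ht
    omega) (Fx_pos lam hlam).le hτ (sm_count B lam hlam)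

end Pool.Agent.R479.DA
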