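import Pool.Agent.R479.DA.Frac
import Pool.Agent.R331.MT.Three

/-!
# Almost every number has many approximations `p / q` with `2 ^ m ∣ q`
-/

set_option autoImplicit false

namespace Pool.Agent.R479.DA

open Filter Topology MeasureTheory Finset
open Pool.Agent.H785R2.ABC (rad)
open scoped ENNReal NNReal

theorem rad_pos' (n : ℕ) : 0 < rad n :=
  Finset.prod_pos fun _ hp => (Nat.prime_of_mem_primeFactors hp).pos

theorem rad_le_self {n : ℕ} (hn : 0 < n) : rad n ≤ n :=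
  Nat.le_of_dvd hn (Nat.prod_primeFactors_dvd n)

theorem rad_mul_le (a b : ℕ) : rad (a * b) ≤ rad a * rad b := by
  rcases Nat.eq_zero_or_pos a with ha | ha
  · subst ha
    simp only [zero_mul]
    exact Nat.le_mul_of_pos_right _ (rad_pos' b)
  rcases Nat.eq_zero_or_pos b with hb | hb
  · subst hb
    simp only [mul_zero]
    exact Nat.le_mul_of_pos_left _ (rad_pos' a)
  unfold rad
  rw [Nat.primeFactors_mul ha.ne' hb.ne', ← Finset.prod_union_inter]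
  refine Nat.le_mul_of_pos_right _ (Finset.prod_pos fun p hp => ?_)
  exact (Nat.prime_of_mem_primeFactors (Finset.mem_inter.1 hp).1).pos

theorem rad_two_pow (m : ℕ) : rad (2 ^ m) ≤ 2 := by
  unfold rad
  rcases Nat.eq_zero_or_pos m with h | h
  · subst h
    simp
  · rw [Nat.primeFactors_prime_pow h.ne' Nat.prime_two]
    simp

theorem rad_le_of_dvd {a b : ℕ} (h : a ∣ b) (hb : b ≠ 0) : rad a ≤ rad b := by
  unfold rad
  exact Finset.prod_le_prod_of_subset_of_one_le' (Nat.primeFactors_mono h hb)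
    fun p hp _ => (Nat.prime_of_mem_primeFactors hp).pos

/-- the fraction `P / (2 ^ m d)` in lowest terms -/
theorem lowest {m P d J : ℕ} (hd : 0 < d) (hP : 0 < P) (hPd : P < 2 ^ m * d)
    (hco : Nat.Coprime P d) (hJ : ¬ 2 ^ J ∣ P) :
    ∃ p q g : ℕ, 0 < p ∧ p < q ∧ Nat.Coprime p q ∧ 0 < g ∧ g < 2 ^ J ∧ p * g = P ∧
      q * g = 2 ^ m * d ∧ rad (p * q * (q - p)) ≤ 2 * d * q ^ 2 := by
  set g := Nat.gcd P (2 ^ m * d) with hg
  have hD : 0 < 2 ^ m * d := by positivity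
  have hg0 : 0 < g := Nat.gcd_pos_of_pos_left _ hP
  have hgP : g ∣ P := Nat.gcd_dvd_left _ _
  have hgD : g ∣ 2 ^ m * d := Nat.gcd_dvd_right _ _
  have hgd : Nat.Coprime g d := Nat.Coprime.coprime_dvd_left hgP hco
  have hg2 : g ∣ 2 ^ m := hgd.dvd_of_dvd_mul_right hgD
  obtain ⟨j, -, hj⟩ := (Nat.dvd_prime_pow Nat.prime_two).1 hg2
  have hjJ : j < J := by
    by_contra hcon
    push Not at hcon
    exact hJ ((pow_dvd_pow 2 hcon).trans (hj ▸ hgP))
  have hgJ : g < 2 ^ J := by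
    rw [hj]
    exact Nat.pow_lt_pow_right (by norm_num) hjJ
  refine ⟨P / g, 2 ^ m * d / g, g, Nat.div_pos (Nat.le_of_dvd hP hgP) hg0, ?_,
    Nat.coprime_div_gcd_div_gcd hg0, hg0, hgJ, Nat.div_mul_cancel hgP, Nat.div_mul_cancel hgD, ?_⟩
  · exact Nat.div_lt_div_of_lt_of_dvd hgD hPd
  · set p := P / g
    set q := 2 ^ m * d / g with hq
    have hqd : q ∣ 2 ^ m * d := Nat.div_dvd_of_dvd hgD
    have hpq : p ≤ q := Nat.div_le_div_right hPd.le
    have hq0 : 0 < q := Nat.div_pos (Nat.le_of_dvd hD hgD) hg0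
    have h1 : rad q ≤ 2 * d := by
      calc rad q ≤ rad (2 ^ m * d) := rad_le_of_dvd hqd hD.ne'
        _ ≤ rad (2 ^ m) * rad d := rad_mul_le _ _
        _ ≤ 2 * d := Nat.mul_le_mul (rad_two_pow m) (rad_le_self hd)
    have h2 : rad p ≤ q := by
      rcases Nat.eq_zero_or_pos p with h | h
      · rw [h]
        have : rad 0 = 1 := by simp [rad]
        omega
      · exact (rad_le_self h).trans hpq
    have h3 : rad (q - p) ≤ q := by
      rcases Nat.eq_zero_or_pos (q - p) with h | h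
      · rw [h]
        have : rad 0 = 1 := by simp [rad]
        omega
      · exact (rad_le_self h).trans (Nat.sub_le _ _)
    calc rad (p * q * (q - p)) ≤ rad (p * q) * rad (q - p) := rad_mul_le _ _
      _ ≤ rad p * rad q * rad (q - p) := Nat.mul_le_mul_right _ (rad_mul_le _ _)
      _ ≤ q * (2 * d) * q := Nat.mul_le_mul (Nat.mul_le_mul h2 h1) h3
      _ = 2 * d * q ^ 2 := by ring

/-- the numbers whose approximations `P / (2 ^ m d)` may cancel too much -/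
def Ebad (N J : ℕ → ℕ) (m : ℕ) : Set ℝ :=
  ⋃ d ∈ Finset.Icc 1 (N m), ⋃ i ∈ Finset.range (2 ^ (m - J m) * d + 1),
    Set.Icc (((2 ^ J m * i : ℕ) : ℝ) / (2 ^ m * d) - 1 / (2 ^ m * (N m + 1) * d))
      (((2 ^ J m * i : ℕ) : ℝ) / (2 ^ m * d) + 1 / (2 ^ m * (N m + 1) * d))

theorem volume_Ebad (N J : ℕ → ℕ) (m : ℕ) (hJ : J m ≤ m) :
    volume (Ebad N J m) ≤ ENNReal.ofReal (4 * (1 / 2) ^ J m) := by
  unfold Ebad
  refine (measure_biUnion_finset_le _ _).trans ?_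
  have h1 : ∀ d ∈ Finset.Icc 1 (N m), volume (⋃ i ∈ Finset.range (2 ^ (m - J m) * d + 1),
      Set.Icc (((2 ^ J m * i : ℕ) : ℝ) / (2 ^ m * d) - 1 / (2 ^ m * (N m + 1) * d))
      (((2 ^ J m * i : ℕ) : ℝ) / (2 ^ m * d) + 1 / (2 ^ m * (N m + 1) * d))) ≤
      ENNReal.ofReal (4 * (1 / 2) ^ J m / (N m + 1)) := by
    intro d hd
    rw [Finset.mem_Icc] at hd
    have hd0 : (0 : ℝ) < d := by exact_mod_cast hd.1
    have hd1 : (1 : ℝ) ≤ d := by exact_mod_cast hd.1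
    refine (measure_biUnion_finset_le _ _).trans ?_
    have h2 : ∀ i ∈ Finset.range (2 ^ (m - J m) * d + 1),
        volume (Set.Icc (((2 ^ J m * i : ℕ) : ℝ) / (2 ^ m * d) - 1 / (2 ^ m * (N m + 1) * d))
        (((2 ^ J m * i : ℕ) : ℝ) / (2 ^ m * d) + 1 / (2 ^ m * (N m + 1) * d))) =
        ENNReal.ofReal (2 / (2 ^ m * (N m + 1) * d)) := by
      intro i _
      rw [Real.volume_Icc]
      congr 1
      ring
    rw [Finset.sum_congr rfl h2, Finset.sum_const, Finset.card_range, nsmul_eq_mul,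
      ← ENNReal.ofReal_natCast, ← ENNReal.ofReal_mul (by positivity)]
    apply ENNReal.ofReal_le_ofReal
    have h3 : ((2 : ℝ) ^ (m - J m)) = 2 ^ m * (1 / 2) ^ J m := by
      rw [pow_sub₀ _ (by norm_num) hJ, one_div, inv_pow]
    have h4 : (1 : ℝ) ≤ 2 ^ (m - J m) * d := by
      have : (1 : ℝ) ≤ 2 ^ (m - J m) := one_le_pow₀ (by norm_num)
      nlinarith
    have h5 : ((2 ^ (m - J m) * d + 1 : ℕ) : ℝ) ≤ 2 * (2 ^ m * (1 / 2) ^ J m * d) := by
      push_cast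
      rw [h3] at h4 ⊢
      linarith
    calc ((2 ^ (m - J m) * d + 1 : ℕ) : ℝ) * (2 / (2 ^ m * (N m + 1) * d))
        ≤ (2 * (2 ^ m * (1 / 2) ^ J m * d)) * (2 / (2 ^ m * (N m + 1) * d)) := by gcongr
      _ = 4 * (1 / 2) ^ J m / (N m + 1) := by
          have : (0 : ℝ) < 2 ^ m := by positivity
          field_simp
          ring
  refine (Finset.sum_le_sum h1).trans ?_
  rw [Finset.sum_const, Nat.card_Icc, nsmul_eq_mul, ← ENNReal.ofReal_natCast,
    ← ENNReal.ofReal_mul (by positivity)]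
  apply ENNReal.ofReal_le_ofReal
  have h6 : ((N m + 1 - 1 : ℕ) : ℝ) = N m := by simp
  rw [h6]
  have h7 : (0 : ℝ) < (N m : ℝ) + 1 := by positivity
  rw [← mul_div_assoc, div_le_iff₀ h7]
  have h8 : (0 : ℝ) ≤ 4 * (1 / 2) ^ J m := by positivity
  nlinarith

/-- Dirichlet's theorem for `2 ^ m x` -/
theorem step {N J : ℕ → ℕ} {m : ℕ} (hN : 1 ≤ N m) (hJ : J m ≤ m) {x : ℝ} (h1 : 1 / 2 ^ m < x)
    (h2 : x < 1 - 1 / 2 ^ m) (hE : x ∉ Ebad N J m) :
    ∃ p q g d : ℕ, 1 ≤ d ∧ d ≤ N m ∧ 0 < p ∧ p < q ∧ Nat.Coprime p q ∧ 0 < g ∧ g < 2 ^ J m ∧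
      q * g = 2 ^ m * d ∧ rad (p * q * (q - p)) ≤ 2 * d * q ^ 2 ∧
      |x - (p : ℝ) / q| ≤ 1 / (2 ^ m * (N m + 1) * d) := by
  obtain ⟨r, hr, hrN⟩ := Real.exists_rat_abs_sub_le_and_den_le (2 ^ m * x) (n := N m) (by omega)
  set d := r.den with hd
  have hd1 : 1 ≤ d := r.den_pos
  have hd0 : (0 : ℝ) < d := by exact_mod_cast hd1
  have h2m : (0 : ℝ) < 2 ^ m := by positivity
  have hN0 : (1 : ℝ) ≤ N m := by exact_mod_cast hN
  have herr : 1 / (((N m : ℕ) + 1 : ℝ) * d) ≤ 1 / 2 := by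
    apply one_div_le_one_div_of_le (by norm_num)
    have : (1 : ℝ) ≤ d := by exact_mod_cast hd1
    nlinarith
  rw [abs_le] at hr
  have hx1 : 1 < 2 ^ m * x := by
    rw [div_lt_iff₀ h2m] at h1
    linarith
  have hx2 : 2 ^ m * x < 2 ^ m - 1 := by
    have h3 : 2 ^ m * x < 2 ^ m * (1 - 1 / 2 ^ m) := by gcongr
    have h4 : (2 : ℝ) ^ m * (1 - 1 / 2 ^ m) = 2 ^ m - 1 := by field_simp
    linarith
  have hr0 : (0 : ℝ) < (r : ℝ) := by linarith [hr.2]
  have hr0' : 0 < r := by exact_mod_cast hr0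
  have hr1 : (r : ℝ) < 2 ^ m := by linarith [hr.1]
  have hnum : 0 < r.num := Rat.num_pos.mpr hr0'
  set P := r.num.toNat with hP
  have hPi : ((P : ℕ) : ℤ) = r.num := Int.toNat_of_nonneg hnum.le
  have hPd : (r : ℝ) = (P : ℝ) / d := by
    have h3 : (r : ℝ) = (r.num : ℝ) / (r.den : ℝ) := Rat.cast_def r
    rw [h3, ← hPi]
    push_cast
    rfl
  have hP0 : 0 < P := by omega
  have hPlt : P < 2 ^ m * d := by
    have h3 : (P : ℝ) < 2 ^ m * d := by
      rw [hPd, div_lt_iff₀ hd0] at hr1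
      exact hr1
    exact_mod_cast h3
  have hco : Nat.Coprime P d := by
    have h3 := r.reduced
    have h4 : r.num.natAbs = P := by omega
    rwa [h4] at h3
  have hdist : |x - (P : ℝ) / (2 ^ m * d)| ≤ 1 / (2 ^ m * (N m + 1) * d) := by
    have h3 : x - (P : ℝ) / (2 ^ m * d) = (2 ^ m * x - r) / 2 ^ m := by
      rw [hPd]
      field_simp
    rw [h3, abs_div, abs_of_pos h2m, div_le_iff₀ h2m, abs_le]
    have h4 : 1 / (2 ^ m * ((N m : ℝ) + 1) * d) * 2 ^ m = 1 / (((N m : ℕ) + 1 : ℝ) * d) := by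
      field_simp
    rw [h4]
    exact ⟨by linarith [hr.1], by linarith [hr.2]⟩
  have hJP : ¬ 2 ^ J m ∣ P := by
    rintro ⟨i, hi⟩
    apply hE
    unfold Ebad
    rw [Set.mem_iUnion₂]
    refine ⟨d, Finset.mem_Icc.2 ⟨hd1, hrN⟩, ?_⟩
    rw [Set.mem_iUnion₂]
    refine ⟨i, ?_, ?_⟩
    · rw [Finset.mem_range]
      have h3 : 2 ^ J m * i < 2 ^ J m * (2 ^ (m - J m) * d) := by
        rw [← mul_assoc, ← pow_add, show J m + (m - J m) = m by omega, ← hi]
        exact hPlt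
      have := lt_of_mul_lt_mul_left h3 (Nat.zero_le _)
      omega
    · rw [← hi]
      rw [abs_le] at hdist
      constructor
      · linarith [hdist.1]
      · linarith [hdist.2]
  obtain ⟨p, q, g, g1, g2, g3, g4, g5, g6, g7, g8⟩ := lowest hd1 hP0 hPlt hco hJP
  refine ⟨p, q, g, d, hd1, hrN, g1, g2, g3, g4, g5, g7, g8, ?_⟩
  have h5 : (P : ℝ) / (2 ^ m * d) = (p : ℝ) / q := by
    have hg0 : (0 : ℝ) < g := by exact_mod_cast g4
    have e1 : (P : ℝ) = p * g := by exact_mod_cast g6.symm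
    have e2 : (2 : ℝ) ^ m * d = q * g := by exact_mod_cast g7.symm
    rw [e1, e2, mul_div_mul_right _ _ hg0.ne']
  rw [← h5]
  exact hdist

/-- **Almost every number has many approximations with a small radical.** -/
theorem ae_approx {lam lam' B : ℝ} (h1 : 2 < lam') (h2 : lam' < lam) (h3 : lam ≤ 3) (hB : 0 < B) :
    ∀ᵐ x ∂(volume : Measure ℝ), x ∈ Set.Ioo (0 : ℝ) 1 → ∃ᶠ q : ℕ in atTop,
      ∃ p : ℕ, (p, q) ∈ Sm B lam ∧ |x - (p : ℝ) / q| < (q : ℝ) ^ (-(lam' - 1)) := by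
  set κ : ℝ := 3 - lam with hκ
  set κ' : ℝ := 3 - lam' with hκ'
  have hκ0 : 0 ≤ κ := by linarith
  have hκκ : κ < κ' := by linarith
  have hκ'0 : 0 < κ' := by linarith
  have hκ'1 : κ' < 1 := by linarith
  set ν : ℝ := (1 - κ') / κ' with hν
  have hν0 : 0 ≤ ν := div_nonneg (by linarith) hκ'0.le
  set δ : ℝ := (1 - κ / κ') / 2 with hδ
  have hr1 : κ / κ' < 1 := (div_lt_one hκ'0).2 hκκ
  have hr0 : 0 ≤ κ / κ' := by positivity
  have hδ0 : 0 < δ := by rw [hδ]; linarith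
  have hδ1 : δ ≤ 1 / 2 := by rw [hδ]; linarith
  set N : ℕ → ℕ := fun m => ⌊(2 : ℝ) ^ ((m : ℝ) * ν)⌋₊ with hNdef
  set J : ℕ → ℕ := fun m => ⌊δ * m⌋₊ with hJdef
  have hN1 : ∀ m : ℕ, 1 ≤ N m := fun m => Nat.one_le_floor_iff _ |>.mpr
    (Real.one_le_rpow (by norm_num) (by positivity))
  have hNle : ∀ m : ℕ, (N m : ℝ) ≤ (2 : ℝ) ^ ((m : ℝ) * ν) := fun m => Nat.floor_le (by positivity)
  have hNlt : ∀ m : ℕ, (2 : ℝ) ^ ((m : ℝ) * ν) < (N m : ℝ) + 1 := fun m => Nat.lt_floor_add_one _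
  have hJle : ∀ m : ℕ, (J m : ℝ) ≤ δ * m := fun m => Nat.floor_le (by positivity)
  have hJm : ∀ m : ℕ, J m ≤ m := by
    intro m
    have h4 : (J m : ℝ) ≤ m := by
      have := hJle m
      have h5 : (0 : ℝ) ≤ m := Nat.cast_nonneg m
      nlinarith
    exact_mod_cast h4
  have hJlt : ∀ m : ℕ, δ * m < (J m : ℝ) + 1 := fun m => Nat.lt_floor_add_one _
  -- Borel-Cantelli
  have hsum : (∑' m, volume (Ebad N J m)) ≠ ⊤ := by
    have h4 : Summable fun m : ℕ => 4 * ((1 : ℝ) / 2) ^ J m := by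
      have hq0 : (0 : ℝ) < (1 / 2 : ℝ) ^ δ := by positivity
      have hq1 : (1 / 2 : ℝ) ^ δ < 1 := Real.rpow_lt_one (by norm_num) (by norm_num) hδ0
      have h5 := (summable_geometric_of_lt_one hq0.le hq1).mul_left 8
      refine Summable.of_nonneg_of_le (fun m => by positivity) (fun m => ?_) h5
      have h6 : ((1 : ℝ) / 2) ^ (J m + 1) ≤ ((1 / 2 : ℝ) ^ δ) ^ m := by
        rw [← Real.rpow_natCast, ← Real.rpow_natCast, ← Real.rpow_mul (by norm_num)]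
        apply Real.rpow_le_rpow_of_exponent_ge (by norm_num) (by norm_num)
        push_cast
        exact (hJlt m).le
      rw [pow_succ] at h6
      linarith
    refine ne_top_of_le_ne_top ?_ (ENNReal.tsum_le_tsum fun m => volume_Ebad N J m (hJm m))
    rw [← ENNReal.ofReal_tsum_of_nonneg (fun m => by positivity) h4]
    exact ENNReal.ofReal_ne_top
  filter_upwards [ae_eventually_notMem hsum] with x hx hx01
  rw [Filter.frequently_atTop]
  intro K
  -- a large scale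
  have hlim2 : Tendsto (fun m : ℕ => (2 : ℝ) ^ (δ * (m : ℝ))) atTop atTop := by
    have h4 : (1 : ℝ) < 2 ^ δ := Real.one_lt_rpow (by norm_num) hδ0
    refine (tendsto_pow_atTop_atTop_of_one_lt h4).congr fun m => ?_
    rw [← Real.rpow_natCast, ← Real.rpow_mul (by norm_num)]
  have hlim0 : Tendsto (fun m : ℕ => (1 : ℝ) / 2 ^ m) atTop (𝓝 0) := by
    have := tendsto_pow_atTop_nhds_zero_of_lt_one (r := (1 / 2 : ℝ)) (by norm_num) (by norm_num)
    refine this.congr fun m => ?_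
    rw [one_div, one_div, inv_pow]
  have ev1 := hlim2.eventually_ge_atTop (2 / B)
  have ev2 := hlim2.eventually_ge_atTop (K : ℝ)
  have ev3 := hlim0.eventually_lt_const hx01.1
  have ev4 := hlim0.eventually_lt_const (show (0 : ℝ) < 1 - x by linarith [hx01.2])
  obtain ⟨m, hxm, e1, e2, e3, e4⟩ := (hx.and (ev1.and (ev2.and (ev3.and ev4)))).exists
  obtain ⟨p, q, g, d, hd1, hdN, hp0, hpq, hco, hg0, hgJ, hqg, hrad, hdist⟩ :=
    step (hN1 m) (hJm m) e3 (by linarith) hxm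
  have hq0 : 0 < q := by omega
  have hqr : (0 : ℝ) < q := by exact_mod_cast hq0
  have hq1 : (1 : ℝ) ≤ q := by exact_mod_cast hq0
  have hdr : (0 : ℝ) < d := by exact_mod_cast hd1
  have hgr : (1 : ℝ) ≤ g := by exact_mod_cast hg0
  have h2m : (0 : ℝ) < 2 ^ m := by positivity
  have hqg' : (q : ℝ) * g = 2 ^ m * d := by exact_mod_cast hqg
  have h2J : ((2 : ℝ) ^ J m) ≤ 2 ^ (δ * (m : ℝ)) := by
    rw [← Real.rpow_natCast]
    exact Real.rpow_le_rpow_of_exponent_le (by norm_num) (hJle m)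
  have hgJ' : (g : ℝ) ≤ 2 ^ (δ * (m : ℝ)) := by
    have : (g : ℝ) ≤ 2 ^ J m := by exact_mod_cast hgJ.le
    exact this.trans h2J
  -- the size of `q`
  have hqle : (q : ℝ) ≤ 2 ^ ((m : ℝ) / κ') := by
    have h4 : (2 : ℝ) ^ ((m : ℝ) / κ') = 2 ^ m * 2 ^ ((m : ℝ) * ν) := by
      rw [← Real.rpow_natCast 2 m, ← Real.rpow_add (by norm_num)]
      congr 1
      rw [hν]
      field_simp
      ring
    rw [h4]
    have h5 : (q : ℝ) ≤ q * g := le_mul_of_one_le_right hqr.le hgr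
    rw [hqg'] at h5
    refine h5.trans ?_
    have h6 : (d : ℝ) ≤ N m := by exact_mod_cast hdN
    gcongr
    exact h6.trans (hNle m)
  refine ⟨q, ?_, p, ⟨hp0, hpq, hco, ?_⟩, ?_⟩
  · -- `K ≤ q`
    have h4 : (2 : ℝ) ^ m ≤ q * 2 ^ (δ * (m : ℝ)) := by
      calc (2 : ℝ) ^ m ≤ 2 ^ m * d := le_mul_of_one_le_right h2m.le (by exact_mod_cast hd1)
        _ = q * g := hqg'.symm
        _ ≤ q * 2 ^ (δ * (m : ℝ)) := by gcongr
    have h5 : (2 : ℝ) ^ m = 2 ^ ((1 - δ) * (m : ℝ)) * 2 ^ (δ * (m : ℝ)) := by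
      rw [← Real.rpow_natCast, ← Real.rpow_add (by norm_num)]
      congr 1
      ring
    rw [h5] at h4
    have h6 : (2 : ℝ) ^ ((1 - δ) * (m : ℝ)) ≤ q := le_of_mul_le_mul_right h4 (by positivity)
    have h7 : (2 : ℝ) ^ (δ * (m : ℝ)) ≤ 2 ^ ((1 - δ) * (m : ℝ)) := by
      apply Real.rpow_le_rpow_of_exponent_le (by norm_num)
      have : (0 : ℝ) ≤ m := Nat.cast_nonneg m
      nlinarith
    have h8 : (K : ℝ) ≤ q := e2.trans (h7.trans h6)
    exact_mod_cast h8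
  · -- the radical
    simp only
    have h4 : (rad (p * q * (q - p)) : ℝ) ≤ 2 * d * q ^ 2 := by exact_mod_cast hrad
    refine h4.trans ?_
    have h5 : (q : ℝ) ^ lam = q ^ (3 : ℕ) * (q : ℝ) ^ (-κ) := by
      rw [← Real.rpow_natCast, ← Real.rpow_add hqr]
      congr 1
      rw [hκ]
      push_cast
      ring
    have h6 : (q : ℝ) ^ κ ≤ 2 ^ ((m : ℝ) * (κ / κ')) := by
      calc (q : ℝ) ^ κ ≤ (2 ^ ((m : ℝ) / κ')) ^ κ := Real.rpow_le_rpow hqr.le hqle hκ0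
        _ = 2 ^ ((m : ℝ) * (κ / κ')) := by
            rw [← Real.rpow_mul (by norm_num)]
            congr 1
            ring
    have h7 : 2 * (2 : ℝ) ^ (δ * (m : ℝ)) * (q : ℝ) ^ κ ≤ B * 2 ^ m := by
      have h8 : (2 : ℝ) ^ m = 2 ^ (δ * (m : ℝ)) * (2 ^ (δ * (m : ℝ)) *
          2 ^ ((m : ℝ) * (κ / κ'))) := by
        rw [← Real.rpow_natCast, ← Real.rpow_add (by norm_num), ← Real.rpow_add (by norm_num)]
        congr 1
        rw [hδ]
        ring
      rw [div_le_iff₀ hB] at e1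
      rw [h8]
      calc 2 * (2 : ℝ) ^ (δ * (m : ℝ)) * (q : ℝ) ^ κ
          ≤ (2 ^ (δ * (m : ℝ)) * B) * 2 ^ (δ * (m : ℝ)) * 2 ^ ((m : ℝ) * (κ / κ')) := by
            gcongr
        _ = _ := by ring
    have h9 : (q : ℝ) ^ κ * (q : ℝ) ^ (-κ) = 1 := by
      rw [← Real.rpow_add hqr]
      simp
    have hqκ : 0 < (q : ℝ) ^ κ := by positivity
    rw [h5]
    have h10 : (d : ℝ) * 2 ^ m ≤ q * 2 ^ (δ * (m : ℝ)) := by
      rw [mul_comm, ← hqg']
      gcongr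
    -- multiply by `q ^ κ 2 ^ m`
    have h11 : (2 * d * (q : ℝ) ^ 2) * ((q : ℝ) ^ κ * 2 ^ m) ≤
        (B * (q ^ (3 : ℕ) * (q : ℝ) ^ (-κ))) * ((q : ℝ) ^ κ * 2 ^ m) := by
      calc (2 * d * (q : ℝ) ^ 2) * ((q : ℝ) ^ κ * 2 ^ m)
          = 2 * (d * 2 ^ m) * q ^ 2 * (q : ℝ) ^ κ := by ring
        _ ≤ 2 * (q * 2 ^ (δ * (m : ℝ))) * q ^ 2 * (q : ℝ) ^ κ := by gcongr
        _ = q ^ 3 * (2 * (2 : ℝ) ^ (δ * (m : ℝ)) * (q : ℝ) ^ κ) := by ring
        _ ≤ q ^ 3 * (B * 2 ^ m) := by gcongr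
        _ = (B * q ^ 3 * 2 ^ m) * ((q : ℝ) ^ κ * (q : ℝ) ^ (-κ)) := by rw [h9]; ring
        _ = _ := by ring
    exact le_of_mul_le_mul_right h11 (by positivity)
  · -- the distance
    refine lt_of_le_of_lt hdist ?_
    have h4 : (q : ℝ) ^ (1 - κ') < (N m : ℝ) + 1 := by
      refine lt_of_le_of_lt ?_ (hNlt m)
      calc (q : ℝ) ^ (1 - κ') ≤ (2 ^ ((m : ℝ) / κ')) ^ (1 - κ') :=
            Real.rpow_le_rpow hqr.le hqle (by linarith)
        _ = 2 ^ ((m : ℝ) * ν) := by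
            rw [← Real.rpow_mul (by norm_num)]
            congr 1
            rw [hν]
            ring
    have h5 : (q : ℝ) ^ (-(lam' - 1)) = 1 / (q * (q : ℝ) ^ (1 - κ')) := by
      rw [one_div, ← Real.rpow_one_add' hqr.le (by linarith), ← Real.rpow_neg hqr.le]
      congr 1
      rw [hκ']
      ring
    rw [h5]
    have hqκ : 0 < (q : ℝ) ^ (1 - κ') := by positivity
    apply one_div_lt_one_div_of_lt (by positivity)
    calc (q : ℝ) * (q : ℝ) ^ (1 - κ') < q * ((N m : ℝ) + 1) := by gcongr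
      _ ≤ (q * g) * ((N m : ℝ) + 1) := by
          have : (q : ℝ) ≤ q * g := le_mul_of_one_le_right hqr.le hgr
          gcongr
      _ = 2 ^ m * ((N m : ℝ) + 1) * d := by
          rw [hqg']
          ring

end Pool.Agent.R479.DA
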