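import Pool.Agent.R479.DA.Low

/-!
# Almost every number has many approximations `p / q` with `2 ^ m ∣ q` and `3 ^ n ∣ p`
-/

set_option autoImplicit false

namespace Pool.Agent.R479.DA

open Filter Topology MeasureTheory Finset
open Pool.Agent.H785R2.ABC (rad)
open scoped ENNReal NNReal

theorem rad_three_pow (m : ℕ) : rad (3 ^ m) ≤ 3 := by
  unfold rad
  rcases Nat.eq_zero_or_pos m with h | h
  · subst h
    simp
  · rw [Nat.primeFactors_prime_pow h.ne' Nat.prime_three]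
    simp

/-- the fraction `3 ^ n u / (2 ^ m v)` in lowest terms -/
theorem lowest2 {m n u v J : ℕ} (hv : 0 < v) (hu : 0 < u) (huv : 3 ^ n * u < 2 ^ m * v)
    (hco : Nat.Coprime u v) (hJ : ¬ 2 ^ J ∣ u) (hJ' : ¬ 3 ^ J ∣ v) :
    ∃ p q g : ℕ, 0 < p ∧ p < q ∧ Nat.Coprime p q ∧ 0 < g ∧ g < 6 ^ J ∧ p * g = 3 ^ n * u ∧
      q * g = 2 ^ m * v ∧ rad (p * q * (q - p)) ≤ (3 * u) * (2 * v) * q := by
  set P := 3 ^ n * u with hPdef
  have hP : 0 < P := by positivity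
  set g := Nat.gcd P (2 ^ m * v) with hg
  have hD : 0 < 2 ^ m * v := by positivity
  have hg0 : 0 < g := Nat.gcd_pos_of_pos_left _ hP
  have hgP : g ∣ P := Nat.gcd_dvd_left _ _
  have hgD : g ∣ 2 ^ m * v := Nat.gcd_dvd_right _ _
  -- `g` is at most `gcd (2 ^ m) u * gcd (3 ^ n) v`
  have hg2 : g ∣ Nat.gcd (2 ^ m) u * Nat.gcd (3 ^ n) v := by
    have h1 : g ∣ Nat.gcd P (2 ^ m) * Nat.gcd P v := Nat.gcd_mul_right_dvd_mul_gcd P (2 ^ m) v
    have h2 : Nat.gcd P (2 ^ m) = Nat.gcd (2 ^ m) u := by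
      rw [hPdef, Nat.gcd_comm]
      exact Nat.Coprime.gcd_mul_left_cancel_right u
        (Nat.Coprime.pow _ _ (by norm_num))
    have h3 : Nat.gcd P v = Nat.gcd (3 ^ n) v := by
      rw [hPdef]
      exact Nat.Coprime.gcd_mul_right_cancel (3 ^ n) hco
    rwa [h2, h3] at h1
  have ha : Nat.gcd (2 ^ m) u < 2 ^ J := by
    obtain ⟨j, -, hj⟩ := (Nat.dvd_prime_pow Nat.prime_two).1 (Nat.gcd_dvd_left (2 ^ m) u)
    have hjJ : j < J := by
      by_contra hcon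
      push Not at hcon
      exact hJ ((pow_dvd_pow 2 hcon).trans (hj ▸ Nat.gcd_dvd_right (2 ^ m) u))
    rw [hj]
    exact Nat.pow_lt_pow_right (by norm_num) hjJ
  have hb : Nat.gcd (3 ^ n) v < 3 ^ J := by
    obtain ⟨j, -, hj⟩ := (Nat.dvd_prime_pow Nat.prime_three).1 (Nat.gcd_dvd_left (3 ^ n) v)
    have hjJ : j < J := by
      by_contra hcon
      push Not at hcon
      exact hJ' ((pow_dvd_pow 3 hcon).trans (hj ▸ Nat.gcd_dvd_right (3 ^ n) v))
    rw [hj]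
    exact Nat.pow_lt_pow_right (by norm_num) hjJ
  have ha0 : 0 < Nat.gcd (2 ^ m) u := Nat.gcd_pos_of_pos_right _ hu
  have hb0 : 0 < Nat.gcd (3 ^ n) v := Nat.gcd_pos_of_pos_right _ hv
  have hgJ : g < 6 ^ J := by
    have h1 : g ≤ Nat.gcd (2 ^ m) u * Nat.gcd (3 ^ n) v :=
      Nat.le_of_dvd (Nat.mul_pos ha0 hb0) hg2
    have h2 : Nat.gcd (2 ^ m) u * Nat.gcd (3 ^ n) v < 2 ^ J * 3 ^ J :=
      Nat.mul_lt_mul'' ha hb
    have h3 : (6 : ℕ) ^ J = 2 ^ J * 3 ^ J := by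
      rw [← mul_pow]
      norm_num
    omega
  refine ⟨P / g, 2 ^ m * v / g, g, Nat.div_pos (Nat.le_of_dvd hP hgP) hg0, ?_,
    Nat.coprime_div_gcd_div_gcd hg0, hg0, hgJ, Nat.div_mul_cancel hgP, Nat.div_mul_cancel hgD, ?_⟩
  · exact Nat.div_lt_div_of_lt_of_dvd hgD huv
  · set p := P / g with hp
    set q := 2 ^ m * v / g with hq
    have hqd : q ∣ 2 ^ m * v := Nat.div_dvd_of_dvd hgD
    have hpd : p ∣ 3 ^ n * u := Nat.div_dvd_of_dvd hgP
    have hq0 : 0 < q := Nat.div_pos (Nat.le_of_dvd hD hgD) hg0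
    have h1 : rad q ≤ 2 * v := by
      calc rad q ≤ rad (2 ^ m * v) := rad_le_of_dvd hqd hD.ne'
        _ ≤ rad (2 ^ m) * rad v := rad_mul_le _ _
        _ ≤ 2 * v := Nat.mul_le_mul (rad_two_pow m) (rad_le_self hv)
    have h2 : rad p ≤ 3 * u := by
      calc rad p ≤ rad (3 ^ n * u) := rad_le_of_dvd hpd hP.ne'
        _ ≤ rad (3 ^ n) * rad u := rad_mul_le _ _
        _ ≤ 3 * u := Nat.mul_le_mul (rad_three_pow n) (rad_le_self hu)
    have h3 : rad (q - p) ≤ q := by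
      rcases Nat.eq_zero_or_pos (q - p) with h | h
      · rw [h]
        have : rad 0 = 1 := by simp [rad]
        omega
      · exact (rad_le_self h).trans (Nat.sub_le _ _)
    calc rad (p * q * (q - p)) ≤ rad (p * q) * rad (q - p) := rad_mul_le _ _
      _ ≤ rad p * rad q * rad (q - p) := Nat.mul_le_mul_right _ (rad_mul_le _ _)
      _ ≤ (3 * u) * (2 * v) * q := Nat.mul_le_mul (Nat.mul_le_mul h2 h1) h3

/-- the interval around `3 ^ n u / (2 ^ m v)` -/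
def II (m n N u v : ℕ) : Set ℝ :=
  Set.Icc (((3 ^ n * u : ℕ) : ℝ) / (2 ^ m * v) - 1 / ((N + 1) * v))
    (((3 ^ n * u : ℕ) : ℝ) / (2 ^ m * v) + 1 / ((N + 1) * v))

theorem volume_II (m n N u v : ℕ) : volume (II m n N u v) = ENNReal.ofReal (2 / ((N + 1) * v)) := by
  unfold II
  rw [Real.volume_Icc]
  congr 1
  ring

def EA (m n N L : ℕ) : Set ℝ := ⋃ v ∈ Finset.Ico 1 L, ⋃ u ∈ Finset.range (4 * v + 1), II m n N u v

def EB (m n N L J : ℕ) : Set ℝ :=
  ⋃ v ∈ Finset.Icc L N, ⋃ i ∈ Finset.range (4 * v / 2 ^ J + 1), II m n N (2 ^ J * i) v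

def EC (m n N J : ℕ) : Set ℝ :=
  ⋃ j ∈ Finset.Icc 1 (N / 3 ^ J), ⋃ u ∈ Finset.range (4 * (3 ^ J * j) + 1), II m n N u (3 ^ J * j)

theorem volume_col (m n N v M : ℕ) (f : ℕ → ℕ) :
    volume (⋃ u ∈ Finset.range M, II m n N (f u) v) ≤ ENNReal.ofReal (M * (2 / ((N + 1) * v))) := by
  refine (measure_biUnion_finset_le _ _).trans ?_
  rw [Finset.sum_congr rfl (fun u _ => volume_II m n N (f u) v), Finset.sum_const,
    Finset.card_range, nsmul_eq_mul, ← ENNReal.ofReal_natCast, ← ENNReal.ofReal_mul (by positivity)]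

theorem volume_EA (m n N L : ℕ) : volume (EA m n N L) ≤ ENNReal.ofReal (10 * L / (N + 1)) := by
  unfold EA
  refine (measure_biUnion_finset_le _ _).trans ?_
  have h1 : ∀ v ∈ Finset.Ico 1 L, volume (⋃ u ∈ Finset.range (4 * v + 1), II m n N u v) ≤
      ENNReal.ofReal (10 / (N + 1)) := by
    intro v hv
    rw [Finset.mem_Ico] at hv
    refine (volume_col m n N v _ id).trans (ENNReal.ofReal_le_ofReal ?_)
    have hv0 : (1 : ℝ) ≤ v := by exact_mod_cast hv.1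
    have hv1 : (0 : ℝ) < v := by linarith
    calc ((4 * v + 1 : ℕ) : ℝ) * (2 / ((N + 1) * v)) ≤ (5 * v) * (2 / ((N + 1) * v)) := by
          gcongr
          push_cast
          linarith
      _ = 10 / (N + 1) := by
          field_simp
          ring
  refine (Finset.sum_le_sum h1).trans ?_
  rw [Finset.sum_const, Nat.card_Ico, nsmul_eq_mul, ← ENNReal.ofReal_natCast,
    ← ENNReal.ofReal_mul (by positivity)]
  apply ENNReal.ofReal_le_ofReal
  have h2 : ((L - 1 : ℕ) : ℝ) ≤ L := by exact_mod_cast Nat.sub_le L 1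
  calc ((L - 1 : ℕ) : ℝ) * (10 / (N + 1)) ≤ L * (10 / (N + 1)) := by gcongr
    _ = 10 * L / (N + 1) := by ring

theorem volume_EB (m n N L J : ℕ) (hL : 1 ≤ L) :
    volume (EB m n N L J) ≤ ENNReal.ofReal (8 * (1 / 2) ^ J + 2 / L) := by
  unfold EB
  refine (measure_biUnion_finset_le _ _).trans ?_
  have hL0 : (1 : ℝ) ≤ L := by exact_mod_cast hL
  have h1 : ∀ v ∈ Finset.Icc L N, volume (⋃ i ∈ Finset.range (4 * v / 2 ^ J + 1),
      II m n N (2 ^ J * i) v) ≤ ENNReal.ofReal ((8 * (1 / 2) ^ J + 2 / L) / (N + 1)) := by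
    intro v hv
    rw [Finset.mem_Icc] at hv
    refine (volume_col m n N v _ (fun i => 2 ^ J * i)).trans (ENNReal.ofReal_le_ofReal ?_)
    have hvL : (L : ℝ) ≤ v := by exact_mod_cast hv.1
    have hv1 : (0 : ℝ) < v := by linarith
    have h2 : ((4 * v / 2 ^ J + 1 : ℕ) : ℝ) ≤ 4 * v * (1 / 2) ^ J + 1 := by
      push_cast
      have h3 : ((4 * v / 2 ^ J : ℕ) : ℝ) ≤ ((4 * v : ℕ) : ℝ) / ((2 ^ J : ℕ) : ℝ) := Nat.cast_div_le
      push_cast at h3
      rw [one_div, inv_pow, ← div_eq_mul_inv]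
      linarith
    calc ((4 * v / 2 ^ J + 1 : ℕ) : ℝ) * (2 / ((N + 1) * v))
        ≤ (4 * v * (1 / 2) ^ J + 1) * (2 / ((N + 1) * v)) := by gcongr
      _ = (8 * (1 / 2) ^ J + 2 / v) / (N + 1) := by
          field_simp
          ring
      _ ≤ (8 * (1 / 2) ^ J + 2 / L) / (N + 1) := by gcongr
  refine (Finset.sum_le_sum h1).trans ?_
  rw [Finset.sum_const, Nat.card_Icc, nsmul_eq_mul, ← ENNReal.ofReal_natCast,
    ← ENNReal.ofReal_mul (by positivity)]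
  apply ENNReal.ofReal_le_ofReal
  have h2 : ((N + 1 - L : ℕ) : ℝ) ≤ N + 1 := by
    have : N + 1 - L ≤ N + 1 := Nat.sub_le _ _
    exact_mod_cast this
  have hN : (0 : ℝ) < (N : ℝ) + 1 := by positivity
  rw [← mul_div_assoc, div_le_iff₀ hN, mul_comm]
  gcongr

theorem volume_EC (m n N J : ℕ) : volume (EC m n N J) ≤ ENNReal.ofReal (10 * (1 / 2) ^ J) := by
  unfold EC
  refine (measure_biUnion_finset_le _ _).trans ?_
  have h1 : ∀ j ∈ Finset.Icc 1 (N / 3 ^ J), volume (⋃ u ∈ Finset.range (4 * (3 ^ J * j) + 1),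
      II m n N u (3 ^ J * j)) ≤ ENNReal.ofReal (10 / (N + 1)) := by
    intro j hj
    rw [Finset.mem_Icc] at hj
    refine (volume_col m n N (3 ^ J * j) _ id).trans (ENNReal.ofReal_le_ofReal ?_)
    have hv0 : 1 ≤ 3 ^ J * j := Nat.mul_pos (by positivity) hj.1
    set v := 3 ^ J * j
    have hv0 : (1 : ℝ) ≤ v := by exact_mod_cast hv0
    have hv1 : (0 : ℝ) < v := by linarith
    calc ((4 * v + 1 : ℕ) : ℝ) * (2 / ((N + 1) * v)) ≤ (5 * v) * (2 / ((N + 1) * v)) := by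
          gcongr
          push_cast
          linarith
      _ = 10 / (N + 1) := by
          field_simp
          ring
  refine (Finset.sum_le_sum h1).trans ?_
  rw [Finset.sum_const, Nat.card_Icc, nsmul_eq_mul, ← ENNReal.ofReal_natCast,
    ← ENNReal.ofReal_mul (by positivity)]
  apply ENNReal.ofReal_le_ofReal
  have hN : (0 : ℝ) < (N : ℝ) + 1 := by positivity
  have h2 : ((N / 3 ^ J + 1 - 1 : ℕ) : ℝ) ≤ (N + 1) * (1 / 2) ^ J := by
    rw [Nat.add_sub_cancel]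
    have h3 : ((N / 3 ^ J : ℕ) : ℝ) ≤ (N : ℝ) / ((3 ^ J : ℕ) : ℝ) := Nat.cast_div_le
    push_cast at h3
    have h4 : (N : ℝ) / 3 ^ J ≤ N / 2 ^ J := by
      gcongr
      norm_num
    have h5 : (N : ℝ) / 2 ^ J = N * (1 / 2) ^ J := by
      rw [one_div, inv_pow, ← div_eq_mul_inv]
    have h6 : (0 : ℝ) ≤ (1 / 2) ^ J := by positivity
    linarith
  calc ((N / 3 ^ J + 1 - 1 : ℕ) : ℝ) * (10 / (N + 1)) ≤
        ((N + 1) * (1 / 2) ^ J) * (10 / (N + 1)) := by gcongr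
    _ = 10 * (1 / 2) ^ J := by
        field_simp

/-- Dirichlet's theorem for `2 ^ m x / 3 ^ n` -/
theorem step2 {m n N L J : ℕ} (hN : 1 ≤ N) (hn : 3 ^ n ≤ 2 ^ m) (hn' : 2 ^ m < 3 ^ (n + 1))
    {x : ℝ} (h1 : 1 / ((N : ℝ) + 1) < x) (h2 : x < 1 - 1 / ((N : ℝ) + 1))
    (hA : x ∉ EA m n N L) (hB : x ∉ EB m n N L J) (hC : x ∉ EC m n N J) :
    ∃ p q g u v : ℕ, L ≤ v ∧ v ≤ N ∧ 0 < p ∧ p < q ∧ Nat.Coprime p q ∧ 0 < g ∧ g < 6 ^ J ∧
      p * g = 3 ^ n * u ∧ q * g = 2 ^ m * v ∧ rad (p * q * (q - p)) ≤ (3 * u) * (2 * v) * q ∧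
      |x - (p : ℝ) / q| ≤ 1 / ((N + 1) * v) := by
  have h2m : (0 : ℝ) < 2 ^ m := by positivity
  have h3n : (0 : ℝ) < 3 ^ n := by positivity
  have hnr : (3 : ℝ) ^ n ≤ 2 ^ m := by exact_mod_cast hn
  have hnr' : (2 : ℝ) ^ m < 3 ^ n * 3 := by
    have : 2 ^ m < 3 ^ n * 3 := by rwa [← pow_succ]
    exact_mod_cast this
  set ρ : ℝ := 2 ^ m / 3 ^ n with hρ
  have hρ1 : 1 ≤ ρ := (one_le_div h3n).2 hnr
  have hρ3 : ρ < 3 := by
    rw [hρ, div_lt_iff₀ h3n]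
    linarith
  obtain ⟨r, hr, hrN⟩ := Real.exists_rat_abs_sub_le_and_den_le (ρ * x) (n := N) (by omega)
  set v := r.den with hv
  have hv1 : 1 ≤ v := r.den_pos
  have hv0 : (0 : ℝ) < v := by exact_mod_cast hv1
  have hN0 : (1 : ℝ) ≤ N := by exact_mod_cast hN
  have herr : 1 / (((N : ℕ) + 1 : ℝ) * v) ≤ 1 / ((N : ℝ) + 1) := by
    apply one_div_le_one_div_of_le (by positivity)
    have : (1 : ℝ) ≤ v := by exact_mod_cast hv1
    nlinarith
  rw [abs_le] at hr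
  have hx0 : 0 < x := lt_trans (by positivity) h1
  have hr0 : (0 : ℝ) < (r : ℝ) := by nlinarith [hr.2]
  have hr0' : 0 < r := by exact_mod_cast hr0
  have hr1 : (r : ℝ) < ρ := by nlinarith [hr.1]
  have hnum : 0 < r.num := Rat.num_pos.mpr hr0'
  set u := r.num.toNat with hu
  have hui : ((u : ℕ) : ℤ) = r.num := Int.toNat_of_nonneg hnum.le
  have huv : (r : ℝ) = (u : ℝ) / v := by
    have h3 : (r : ℝ) = (r.num : ℝ) / (r.den : ℝ) := Rat.cast_def r
    rw [h3, ← hui]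
    push_cast
    rfl
  have hu0 : 0 < u := by omega
  have hult : 3 ^ n * u < 2 ^ m * v := by
    have h3 : (u : ℝ) / v < 2 ^ m / 3 ^ n := by
      rw [← huv]
      exact hr1
    rw [div_lt_div_iff₀ hv0 h3n] at h3
    have h4 : (3 : ℝ) ^ n * u < 2 ^ m * v := by linarith
    exact_mod_cast h4
  have hu4 : u ≤ 4 * v := by
    have h3 : (u : ℝ) / v < 3 := by
      rw [← huv]
      linarith
    rw [div_lt_iff₀ hv0] at h3
    have h4 : u < 3 * v := by exact_mod_cast h3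
    omega
  have hco : Nat.Coprime u v := by
    have h3 := r.reduced
    have h4 : r.num.natAbs = u := by omega
    rwa [h4] at h3
  have hdist : |x - ((3 ^ n * u : ℕ) : ℝ) / (2 ^ m * v)| ≤ 1 / ((N + 1) * v) := by
    have h3 : x - ((3 ^ n * u : ℕ) : ℝ) / (2 ^ m * v) = (ρ * x - r) / ρ := by
      rw [huv, hρ]
      push_cast
      field_simp
    rw [h3, abs_div, abs_of_pos (by linarith : 0 < ρ), div_le_iff₀ (by linarith : 0 < ρ), abs_le]
    have h4 : 1 / (((N : ℕ) + 1 : ℝ) * v) ≤ 1 / (((N : ℕ) + 1 : ℝ) * v) * ρ :=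
      le_mul_of_one_le_right (by positivity) hρ1
    exact ⟨by linarith [hr.1], by linarith [hr.2]⟩
  have hmem : x ∈ II m n N u v := by
    unfold II
    rw [abs_le] at hdist
    exact ⟨by linarith [hdist.2], by linarith [hdist.1]⟩
  have hLv : L ≤ v := by
    by_contra hcon
    push Not at hcon
    apply hA
    unfold EA
    rw [Set.mem_iUnion₂]
    refine ⟨v, Finset.mem_Ico.2 ⟨hv1, hcon⟩, ?_⟩
    rw [Set.mem_iUnion₂]
    exact ⟨u, Finset.mem_range.2 (by omega), hmem⟩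
  have hJ2 : ¬ 2 ^ J ∣ u := by
    rintro ⟨i, hi⟩
    apply hB
    unfold EB
    rw [Set.mem_iUnion₂]
    refine ⟨v, Finset.mem_Icc.2 ⟨hLv, hrN⟩, ?_⟩
    rw [Set.mem_iUnion₂]
    refine ⟨i, Finset.mem_range.2 ?_, ?_⟩
    · have h5 : i ≤ 4 * v / 2 ^ J := by
        rw [Nat.le_div_iff_mul_le (by positivity), mul_comm]
        rw [← hi]
        exact hu4
      omega
    · rw [← hi]
      exact hmem
  have hJ3 : ¬ 3 ^ J ∣ v := by
    rintro ⟨j, hj⟩
    apply hC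
    unfold EC
    rw [Set.mem_iUnion₂]
    have hj1 : 1 ≤ j := by
      rcases Nat.eq_zero_or_pos j with h | h
      · rw [h, mul_zero] at hj
        omega
      · exact h
    refine ⟨j, Finset.mem_Icc.2 ⟨hj1, ?_⟩, ?_⟩
    · rw [Nat.le_div_iff_mul_le (by positivity), mul_comm, ← hj]
      exact hrN
    · rw [Set.mem_iUnion₂]
      rw [← hj]
      exact ⟨u, Finset.mem_range.2 (by omega), hmem⟩
  obtain ⟨p, q, g, g1, g2, g3, g4, g5, g6, g7, g8⟩ := lowest2 hv1 hu0 hult hco hJ2 hJ3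
  refine ⟨p, q, g, u, v, hLv, hrN, g1, g2, g3, g4, g5, g6, g7, g8, ?_⟩
  have h5 : ((3 ^ n * u : ℕ) : ℝ) / (2 ^ m * v) = (p : ℝ) / q := by
    have hg0 : (0 : ℝ) < g := by exact_mod_cast g4
    have e1 : ((3 ^ n * u : ℕ) : ℝ) = p * g := by exact_mod_cast g6.symm
    have e2 : (2 : ℝ) ^ m * v = q * g := by exact_mod_cast g7.symm
    rw [e1, e2, mul_div_mul_right _ _ hg0.ne']
  rw [← h5]
  exact hdist

end Pool.Agent.R479.DA
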